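import Pool.Agent.H734Z.RS.Defs
import Pool.Agent.Helper88.SE.P_conv

set_option autoImplicit false

open MeasureTheory Set Filter Topology
open scoped ENNReal
open Pool.Agent.Helper88.SE

namespace Pool.Agent.H734Z.RS

namespace Cube

/-- Energy of a family of points. -/
noncomputable def Eng {d : ℕ} (s : ℝ) {ι : Type} [Fintype ι] (x : ι → Fin d → ℝ) : ℝ :=
  ∑ i, ∑ j, ed (x i) (x j) ^ (-s)

lemma ed_nonneg {d : ℕ} (u v : Fin d → ℝ) : 0 ≤ ed u v := Real.sqrt_nonneg _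

lemma abs_le_ed {d : ℕ} (u v : Fin d → ℝ) (c : Fin d) : |u c - v c| ≤ ed u v :=
  Real.abs_le_sqrt (Finset.single_le_sum (f := fun k => (u k - v k) ^ 2)
    (fun _ _ => sq_nonneg _) (Finset.mem_univ c))

lemma eng_eq {d N : ℕ} {s : ℝ} (hs : 0 < s) (x : Fin N → Fin d → ℝ) :
    ∑ i : Fin N, ∑ j ∈ Finset.univ.erase i,
      (Real.sqrt (∑ k : Fin d, (x i k - x j k) ^ 2)) ^ (-s) = Eng s x := by
  refine Finset.sum_congr rfl fun i _ => ?_
  refine Finset.sum_erase _ ?_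
  simp [Real.zero_rpow (neg_ne_zero.2 hs.ne')]

lemma eng_nonneg {d : ℕ} (s : ℝ) {ι : Type} [Fintype ι] (x : ι → Fin d → ℝ) : 0 ≤ Eng s x :=
  Finset.sum_nonneg fun _ _ => Finset.sum_nonneg fun _ _ => Real.rpow_nonneg (ed_nonneg _ _) _

lemma Ecube_eq {d N : ℕ} {s : ℝ} (hs : 0 < s) : Ecube d s N =
    ⨅ x : {x : Fin N → Fin d → ℝ // Function.Injective x ∧ ∀ i k, 0 ≤ x i k ∧ x i k ≤ 1},
      Eng s x.1 := by
  unfold Ecube
  exact congrArg _ (funext fun x => eng_eq hs x.1)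

lemma Ecube_nonneg {d N : ℕ} {s : ℝ} (hs : 0 < s) : 0 ≤ Ecube d s N := by
  rw [Ecube_eq hs]
  exact Real.iInf_nonneg fun x => eng_nonneg s x.1

lemma Ecube_le {d N : ℕ} {s : ℝ} (hs : 0 < s) {ι : Type} [Fintype ι] (hN : N ≤ Fintype.card ι)
    (y : ι → Fin d → ℝ) (hy : Function.Injective y) (hc : ∀ i k, 0 ≤ y i k ∧ y i k ≤ 1) :
    Ecube d s N ≤ Eng s y := by
  classical
  obtain ⟨e⟩ : Nonempty (Fin N ↪ ι) :=
    Function.Embedding.nonempty_of_card_le (by simpa using hN)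
  rw [Ecube_eq hs]
  refine (ciInf_le ⟨0, by rintro _ ⟨x, rfl⟩; exact eng_nonneg s x.1⟩
    ⟨fun i => y (e i), hy.comp e.injective, fun i k => hc _ k⟩).trans ?_
  have h1 : ∀ F : ι → ℝ, (∀ i, 0 ≤ F i) → ∑ i, F (e i) ≤ ∑ i, F i := by
    intro F hF
    rw [← Finset.sum_map Finset.univ e F]
    exact Finset.sum_le_sum_of_subset_of_nonneg (Finset.subset_univ _) fun i _ _ => hF i
  calc ∑ i, ∑ j, ed (y (e i)) (y (e j)) ^ (-s) ≤ ∑ i, ∑ j, ed (y (e i)) (y j) ^ (-s) :=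
        Finset.sum_le_sum fun i _ => h1 (fun j => ed (y (e i)) (y j) ^ (-s))
          fun j => Real.rpow_nonneg (ed_nonneg _ _) _
    _ ≤ _ := h1 (fun i => ∑ j, ed (y i) (y j) ^ (-s)) fun i =>
        Finset.sum_nonneg fun _ _ => Real.rpow_nonneg (ed_nonneg _ _) _

lemma conf_nonempty {d : ℕ} (hd : 0 < d) (N : ℕ) : Nonempty
    {x : Fin N → Fin d → ℝ // Function.Injective x ∧ ∀ i k, 0 ≤ x i k ∧ x i k ≤ 1} := by
  refine ⟨⟨fun i _ => 1 / ((i : ℝ) + 1), fun i j h => ?_, fun i k => ⟨by positivity, ?_⟩⟩⟩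
  · have h1 := congrFun h ⟨0, hd⟩
    simp only [one_div, inv_inj, add_left_inj, Nat.cast_inj] at h1
    exact Fin.ext h1
  · rw [div_le_one (by positivity)]
    have : (0 : ℝ) ≤ (i : ℕ) := Nat.cast_nonneg _
    linarith

/-- The one-dimensional weight. -/
noncomputable def fw (p : ℝ) (z : ℤ) : ℝ := (max 1 |(z : ℝ)|) ^ (-p)

lemma fw_nonneg (p : ℝ) (z : ℤ) : 0 ≤ fw p z :=
  Real.rpow_nonneg (zero_le_one.trans (le_max_left _ _)) _

lemma fw_summable {p : ℝ} (hp : 1 < p) : Summable (fw p) := by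
  refine Summable.of_nonneg_of_le (fw_nonneg p) (fun z => ?_)
    ((Real.summable_abs_int_rpow hp).add (hasSum_ite_eq (0 : ℤ) (1 : ℝ)).summable)
  by_cases h : z = 0
  · subst h
    simp [fw, Real.zero_rpow (show -p ≠ 0 by linarith)]
  · have : (1 : ℝ) ≤ |(z : ℝ)| := by exact_mod_cast Int.one_le_abs h
    simp [fw, h, max_eq_right this]

lemma fw_sum {p : ℝ} (hp : 1 < p) {m : ℕ} (a : Fin m) :
    ∑ t : Fin m, fw p ((a : ℕ) - (t : ℕ)) ≤ ∑' z, fw p z := by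
  classical
  have hinj : Function.Injective fun t : Fin m => ((a : ℕ) : ℤ) - ((t : ℕ) : ℤ) := by
    intro t t' h
    simp only [sub_right_inj, Nat.cast_inj] at h
    exact Fin.ext h
  rw [← Finset.sum_image (f := fw p) (s := Finset.univ) fun t _ t' _ h => hinj h]
  exact (fw_summable hp).sum_le_tsum _ fun z _ => fw_nonneg p z

lemma far {d m : ℕ} (hm : 0 < m) {g : ℝ} (hg : 0 < g) (hg1 : g < 1) (u v : Fin d → ℝ)
    (hu : ∀ c, 0 ≤ u c ∧ u c ≤ 1) (hv : ∀ c, 0 ≤ v c ∧ v c ≤ 1) (k k' : Fin d → Fin m)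
    (hk : k ≠ k') (c : Fin d) :
    g / m * max 1 |((((k c : ℕ) : ℤ) - ((k' c : ℕ) : ℤ) : ℤ) : ℝ)| ≤
      ed (fun c => (((k c : ℕ) : ℝ) + (1 - g) * u c) / m)
        (fun c => (((k' c : ℕ) : ℝ) + (1 - g) * v c) / m) := by
  have hm' : (0 : ℝ) < m := by exact_mod_cast hm
  have key : ∀ c, k c ≠ k' c → 1 ≤ |((((k c : ℕ) : ℤ) - ((k' c : ℕ) : ℤ) : ℤ) : ℝ)| ∧
      g / m * |((((k c : ℕ) : ℤ) - ((k' c : ℕ) : ℤ) : ℤ) : ℝ)| ≤
      ed (fun c => (((k c : ℕ) : ℝ) + (1 - g) * u c) / m)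
        (fun c => (((k' c : ℕ) : ℝ) + (1 - g) * v c) / m) := by
    intro c hc
    have h0 : ((k c : ℕ) : ℤ) - ((k' c : ℕ) : ℤ) ≠ 0 := by
      intro h
      apply hc
      apply Fin.ext
      omega
    have h1 : (1 : ℝ) ≤ |((((k c : ℕ) : ℤ) - ((k' c : ℕ) : ℤ) : ℤ) : ℝ)| := by
      exact_mod_cast Int.one_le_abs h0
    refine ⟨h1, le_trans ?_ (abs_le_ed _ _ c)⟩
    push_cast at h1 ⊢
    rw [← sub_div, abs_div, abs_of_pos hm', div_mul_eq_mul_div]
    refine div_le_div_of_nonneg_right ?_ hm'.le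
    set z : ℝ := ((k c : ℕ) : ℝ) - ((k' c : ℕ) : ℝ) with hz
    have e : ((k c : ℕ) : ℝ) + (1 - g) * u c - (((k' c : ℕ) : ℝ) + (1 - g) * v c) =
        z + (1 - g) * (u c - v c) := by rw [hz]; ring
    rw [e]
    have h2 : |(1 - g) * (u c - v c)| ≤ 1 - g := by
      rw [abs_mul, abs_of_pos (by linarith)]
      refine mul_le_of_le_one_right (by linarith) (abs_le.2 ⟨?_, ?_⟩)
      · linarith [(hu c).1, (hv c).2]
      · linarith [(hu c).2, (hv c).1]
    have h3 := abs_add_le (z + (1 - g) * (u c - v c)) (-((1 - g) * (u c - v c)))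
    rw [abs_neg, add_neg_cancel_right] at h3
    nlinarith
  by_cases hc : k c = k' c
  · obtain ⟨c₀, h₀⟩ := Function.ne_iff.1 hk
    obtain ⟨h1, h2⟩ := key c₀ h₀
    rw [hc]
    simp only [sub_self, Int.cast_zero, abs_zero, zero_le_one, sup_of_le_left]
    exact le_trans (mul_le_mul_of_nonneg_left h1 (by positivity)) h2
  · obtain ⟨h1, h2⟩ := key c hc
    rwa [max_eq_right h1]

lemma near {d m : ℕ} (hm : 0 < m) {g : ℝ} (hg1 : g < 1) (u v : Fin d → ℝ) (k : Fin d → Fin m) :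
    ed (fun c => (((k c : ℕ) : ℝ) + (1 - g) * u c) / m)
        (fun c => (((k c : ℕ) : ℝ) + (1 - g) * v c) / m) = (1 - g) / m * ed u v := by
  have hm' : (0 : ℝ) < m := by exact_mod_cast hm
  have h0 : 0 ≤ (1 - g) / m := div_nonneg (by linarith) hm'.le
  unfold ed
  rw [← Real.sqrt_sq h0, ← Real.sqrt_mul (sq_nonneg _), Finset.mul_sum]
  congr 1
  refine Finset.sum_congr rfl fun c _ => ?_
  ring

lemma block {d : ℕ} (hd : 0 < d) {s : ℝ} (hs : (d : ℝ) < s) {m n N : ℕ} (hm : 0 < m)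
    (hN : N ≤ m ^ d * n) {g : ℝ} (hg : 0 < g) (hg1 : g < 1) (x : Fin n → Fin d → ℝ)
    (hx : Function.Injective x) (hc : ∀ i k, 0 ≤ x i k ∧ x i k ≤ 1) :
    Ecube d s N ≤ (m : ℝ) ^ d * (((1 - g) / m) ^ (-s) * Eng s x +
      (n : ℝ) ^ 2 * ((g / m) ^ (-s) * (∑' z, fw (s / d) z) ^ d)) := by
  classical
  have hm' : (0 : ℝ) < m := by exact_mod_cast hm
  have hd' : (0 : ℝ) < d := by exact_mod_cast hd
  have hs0 : 0 < s := hd'.trans hs
  have hp : 1 < s / d := by rwa [one_lt_div hd']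
  have hgm : 0 < g / m := div_pos hg hm'
  have hgm' : 0 < (1 - g) / m := div_pos (by linarith) hm'
  let y : (Fin d → Fin m) × Fin n → Fin d → ℝ := fun z c =>
    (((z.1 c : ℕ) : ℝ) + (1 - g) * x z.2 c) / m
  have hy : Function.Injective y := by
    rintro ⟨k, i⟩ ⟨k', j⟩ h
    have h0 : ed (y (k, i)) (y (k', j)) = 0 := by rw [h]; simp [ed]
    by_cases hk : k = k'
    · subst hk
      have h1 : x i = x j := by
        funext c
        have h2 := congrFun h c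
        simp only [y] at h2
        rw [div_left_inj' hm'.ne', add_right_inj] at h2
        exact mul_left_cancel₀ (by linarith) h2
      rw [hx h1]
    · have h1 := far hm hg hg1 (x i) (x j) (hc i) (hc j) k k' hk ⟨0, hd⟩
      have h2 := mul_pos hgm (lt_of_lt_of_le one_pos (le_max_left 1
        |((((k ⟨0, hd⟩ : ℕ) : ℤ) - ((k' ⟨0, hd⟩ : ℕ) : ℤ) : ℤ) : ℝ)|))
      exact absurd (h2.trans_le h1) (by rw [show ed _ _ = 0 from h0]; exact lt_irrefl _)
  have hyc : ∀ z c, 0 ≤ y z c ∧ y z c ≤ 1 := by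
    intro z c
    have h1 := hc z.2 c
    have h2 : ((z.1 c : ℕ) : ℝ) + 1 ≤ m := by exact_mod_cast (z.1 c).2
    have h3 : (0 : ℝ) ≤ ((z.1 c : ℕ) : ℝ) := Nat.cast_nonneg _
    constructor
    · exact div_nonneg (add_nonneg h3 (mul_nonneg (by linarith) h1.1)) hm'.le
    · rw [div_le_one hm']
      nlinarith [h1.1, h1.2]
  refine (Ecube_le hs0 (by simpa using hN) y hy hyc).trans ?_
  have pt : ∀ (k k' : Fin d → Fin m) (i j : Fin n), ed (y (k, i)) (y (k', j)) ^ (-s) ≤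
      (if k' = k then ((1 - g) / m) ^ (-s) * ed (x i) (x j) ^ (-s) else 0) +
        (g / m) ^ (-s) * ∏ c, fw (s / d) ((k c : ℕ) - (k' c : ℕ)) := by
    intro k k' i j
    have h0 : 0 ≤ (g / m) ^ (-s) * ∏ c, fw (s / d) ((k c : ℕ) - (k' c : ℕ)) :=
      mul_nonneg (Real.rpow_nonneg hgm.le _) (Finset.prod_nonneg fun c _ => fw_nonneg _ _)
    by_cases hk : k' = k
    · subst hk
      rw [if_pos rfl, ← Real.mul_rpow hgm'.le (ed_nonneg _ _), ← near hm hg1 (x i) (x j) k']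
      exact le_add_of_nonneg_right h0
    · rw [if_neg hk, zero_add]
      have e1 : ∀ r : ℝ, 0 ≤ r → r ^ (-s) = ∏ _c : Fin d, r ^ (-(s / d)) := by
        intro r hr
        rw [Finset.prod_const, Finset.card_univ, Fintype.card_fin, ← Real.rpow_natCast,
          ← Real.rpow_mul hr]
        congr 1
        field_simp
      rw [e1 _ (ed_nonneg _ _), e1 _ hgm.le, ← Finset.prod_mul_distrib]
      refine Finset.prod_le_prod (fun c _ => Real.rpow_nonneg (ed_nonneg _ _) _) fun c _ => ?_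
      have h1 := far hm hg hg1 (x i) (x j) (hc i) (hc j) k k' (Ne.symm hk) c
      have h2 := lt_of_lt_of_le one_pos (le_max_left 1
        |((((k c : ℕ) : ℤ) - ((k' c : ℕ) : ℤ) : ℤ) : ℝ)|)
      unfold fw
      rw [← Real.mul_rpow hgm.le h2.le]
      exact Real.rpow_le_rpow_of_nonpos (mul_pos hgm h2) h1 (by linarith)
  have hK : ∀ k : Fin d → Fin m, ∑ k' : Fin d → Fin m, ∏ c, fw (s / d) ((k c : ℕ) - (k' c : ℕ)) ≤
      (∑' z, fw (s / d) z) ^ d := by
    intro k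
    rw [← Fintype.piFinset_univ, ← Finset.prod_univ_sum (fun _ => Finset.univ)
      fun c (t : Fin m) => fw (s / d) ((k c : ℕ) - (t : ℕ))]
    calc _ ≤ ∏ _c : Fin d, ∑' z, fw (s / d) z :=
          Finset.prod_le_prod (fun c _ => Finset.sum_nonneg fun _ _ => fw_nonneg _ _)
            fun c _ => fw_sum hp (k c)
      _ = _ := by simp
  unfold Eng
  rw [Fintype.sum_prod_type]
  calc _ ≤ ∑ _k : Fin d → Fin m, (((1 - g) / m) ^ (-s) * (∑ i, ∑ j, ed (x i) (x j) ^ (-s)) +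
        (n : ℝ) ^ 2 * ((g / m) ^ (-s) * (∑' z, fw (s / d) z) ^ d)) := by
        refine Finset.sum_le_sum fun k _ => ?_
        calc _ ≤ ∑ i : Fin n, (((1 - g) / m) ^ (-s) * (∑ j, ed (x i) (x j) ^ (-s)) +
              (n : ℝ) * ((g / m) ^ (-s) * (∑' z, fw (s / d) z) ^ d)) := by
              refine Finset.sum_le_sum fun i _ => ?_
              rw [Fintype.sum_prod_type_right]
              calc _ ≤ ∑ j : Fin n, (((1 - g) / m) ^ (-s) * ed (x i) (x j) ^ (-s) +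
                    (g / m) ^ (-s) * (∑' z, fw (s / d) z) ^ d) := by
                    refine Finset.sum_le_sum fun j _ => ?_
                    refine (Finset.sum_le_sum fun k' _ => pt k k' i j).trans ?_
                    rw [Finset.sum_add_distrib, Finset.sum_ite_eq', if_pos (Finset.mem_univ _),
                      ← Finset.mul_sum]
                    exact add_le_add le_rfl
                      (mul_le_mul_of_nonneg_left (hK k) (Real.rpow_nonneg hgm.le _))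
                _ = _ := by
                    rw [Finset.sum_add_distrib, ← Finset.mul_sum]
                    simp
          _ = _ := by
              rw [Finset.sum_add_distrib, ← Finset.mul_sum]
              simp only [Finset.sum_const, Finset.card_univ, Fintype.card_fin, nsmul_eq_mul]
              ring
    _ = _ := by
        rw [Finset.sum_const, Finset.card_univ, nsmul_eq_mul]
        simp

lemma block' {d : ℕ} (hd : 0 < d) {s : ℝ} (hs : (d : ℝ) < s) {m n N : ℕ} (hm : 0 < m)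
    (hN : N ≤ m ^ d * n) {g : ℝ} (hg : 0 < g) (hg1 : g < 1) :
    Ecube d s N ≤ (m : ℝ) ^ (d + s) * ((1 - g) ^ (-s) * Ecube d s n +
      (n : ℝ) ^ 2 * (g ^ (-s) * (∑' z, fw (s / d) z) ^ d)) := by
  have hm' : (0 : ℝ) < m := by exact_mod_cast hm
  have hd' : (0 : ℝ) < d := by exact_mod_cast hd
  have hs0 : 0 < s := hd'.trans hs
  have := conf_nonempty hd n
  have h1g : 0 < 1 - g := by linarith
  have hA : 0 < (m : ℝ) ^ (d + s) * (1 - g) ^ (-s) := by positivity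
  have e : ∀ r : ℝ, 0 < r → (r / m) ^ (-s) = (m : ℝ) ^ s * r ^ (-s) := by
    intro r hr
    rw [Real.div_rpow hr.le hm'.le, Real.rpow_neg hm'.le, div_inv_eq_mul, mul_comm]
  have h2 : (Ecube d s N - (m : ℝ) ^ (d + s) * ((n : ℝ) ^ 2 *
      (g ^ (-s) * (∑' z, fw (s / d) z) ^ d))) / ((m : ℝ) ^ (d + s) * (1 - g) ^ (-s)) ≤
      Ecube d s n := by
    rw [Ecube_eq (N := n) hs0]
    refine le_ciInf fun x => ?_
    have h3 := block hd hs hm hN hg hg1 x.1 x.2.1 x.2.2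
    rw [e _ hg, e _ h1g] at h3
    rw [div_le_iff₀ hA, Real.rpow_add hm', Real.rpow_natCast]
    linarith
  rw [div_le_iff₀ hA] at h2
  linarith

lemma step {d : ℕ} (hd : 0 < d) {s : ℝ} (hs : (d : ℝ) < s) {n : ℕ} (hn : 0 < n) {g : ℝ}
    (hg : 0 < g) (hg1 : g < 1) {δ : ℝ} (hδ : 0 < δ) :
    ∀ᶠ N : ℕ in atTop, (N : ℝ) ^ (-1 - s / (d : ℝ)) * Ecube d s N ≤
      (1 - g) ^ (-s) * ((n : ℝ) ^ (-1 - s / (d : ℝ)) * Ecube d s n) +
        (n : ℝ) ^ (1 - s / (d : ℝ)) * (g ^ (-s) * (∑' z, fw (s / d) z) ^ d) + δ := by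
  have hd' : (0 : ℝ) < d := by exact_mod_cast hd
  have hn' : (0 : ℝ) < n := by exact_mod_cast hn
  have hs0 : 0 < s := hd'.trans hs
  have h1g : 0 < 1 - g := by linarith
  have hK : 0 ≤ (∑' z, fw (s / d) z) ^ d := pow_nonneg (tsum_nonneg (fw_nonneg _)) _
  set K := (∑' z, fw (s / d) z) ^ d with hKdef
  set c := (1 - g) ^ (-s) * ((n : ℝ) ^ (-1 - s / (d : ℝ)) * Ecube d s n) +
        (n : ℝ) ^ (1 - s / (d : ℝ)) * (g ^ (-s) * K) with hc
  have hE := Ecube_nonneg (d := d) (N := n) hs0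
  have ht : Tendsto (fun N : ℕ => ((N : ℝ) / n) ^ (1 / (d : ℝ))) atTop atTop :=
    (tendsto_rpow_atTop (by positivity)).comp
      (tendsto_natCast_atTop_atTop.atTop_div_const hn')
  have hl : Tendsto (fun N : ℕ => (1 + (((N : ℝ) / n) ^ (1 / (d : ℝ)))⁻¹) ^ (d + s) * c) atTop
      (𝓝 ((1 + 0) ^ (d + s) * c)) :=
    ((tendsto_const_nhds.add ht.inv_tendsto_atTop).rpow_const (Or.inl (by norm_num))).mul_const c
  rw [add_zero, Real.one_rpow, one_mul] at hl
  filter_upwards [hl.eventually (gt_mem_nhds (lt_add_of_pos_right c hδ)), eventually_gt_atTop 0]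
    with N h1 hN
  refine le_trans ?_ h1.le
  have hN' : (0 : ℝ) < N := by exact_mod_cast hN
  set t : ℝ := ((N : ℝ) / n) ^ (1 / (d : ℝ)) with htdef
  have ht0 : 0 < t := by positivity
  have htd : t ^ d = N / n := by
    rw [htdef, ← Real.rpow_natCast, ← Real.rpow_mul (by positivity), one_div_mul_cancel hd'.ne',
      Real.rpow_one]
  have hm : 0 < ⌈t⌉₊ := Nat.ceil_pos.2 ht0
  have hN2 : N ≤ ⌈t⌉₊ ^ d * n := by
    have h2 : t ^ d ≤ (⌈t⌉₊ : ℝ) ^ d := pow_le_pow_left₀ ht0.le (Nat.le_ceil t) d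
    rw [htd, div_le_iff₀ hn'] at h2
    exact_mod_cast h2
  have h3 := block' hd hs hm hN2 hg hg1
  have h4 : (⌈t⌉₊ : ℝ) ^ (d + s) ≤ ((1 + t⁻¹) * t) ^ (d + s) := by
    refine Real.rpow_le_rpow (Nat.cast_nonneg _) ?_ (by positivity)
    have := (Nat.ceil_lt_add_one ht0.le).le
    rw [add_mul, inv_mul_cancel₀ ht0.ne']
    linarith
  have h5 : (N : ℝ) ^ (-1 - s / (d : ℝ)) * t ^ (d + s) = (n : ℝ) ^ (-1 - s / (d : ℝ)) := by
    rw [htdef, ← Real.rpow_mul (by positivity), Real.div_rpow hN'.le hn'.le, ← mul_div_assoc,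
      ← Real.rpow_add hN', show -1 - s / (d : ℝ) + 1 / d * (d + s) = 0 by field_simp; ring,
      Real.rpow_zero, one_div, ← Real.rpow_neg hn'.le]
    congr 1
    field_simp
    ring
  have h6 : (n : ℝ) ^ (1 - s / (d : ℝ)) = (n : ℝ) ^ (-1 - s / (d : ℝ)) * (n : ℝ) ^ 2 := by
    rw [← Real.rpow_natCast, ← Real.rpow_add hn']
    congr 1
    push_cast
    ring
  have h7 : 0 ≤ (1 - g) ^ (-s) * Ecube d s n + (n : ℝ) ^ 2 * (g ^ (-s) * K) := by positivity
  calc _ ≤ (N : ℝ) ^ (-1 - s / (d : ℝ)) * (((1 + t⁻¹) * t) ^ (d + s) *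
        ((1 - g) ^ (-s) * Ecube d s n + (n : ℝ) ^ 2 * (g ^ (-s) * K))) :=
        mul_le_mul_of_nonneg_left (h3.trans (mul_le_mul_of_nonneg_right h4 h7)) (by positivity)
    _ = (1 + t⁻¹) ^ (d + s) * (((N : ℝ) ^ (-1 - s / (d : ℝ)) * t ^ (d + s)) *
        ((1 - g) ^ (-s) * Ecube d s n + (n : ℝ) ^ 2 * (g ^ (-s) * K))) := by
        rw [Real.mul_rpow (by positivity) ht0.le]
        ring
    _ = _ := by
        rw [h5, hc, h6]
        ring

end Cube

theorem stCube (d : ℕ) (hd : 2 ≤ d) (s : ℝ) (hs : (d : ℝ) < s) :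
    ∃ C : ℝ, 0 ≤ C ∧ StCube d s C := by
  have hd0 : 0 < d := by omega
  have hd' : (0 : ℝ) < d := by exact_mod_cast hd0
  have hs0 : 0 < s := hd'.trans hs
  have hpos : ∀ N : ℕ, 0 ≤ (N : ℝ) ^ (-1 - s / (d : ℝ)) * Ecube d s N := fun N =>
    mul_nonneg (Real.rpow_nonneg (Nat.cast_nonneg _) _) (Cube.Ecube_nonneg hs0)
  obtain ⟨hi, hhi⟩ : ∃ hi : ℝ, ∀ᶠ N : ℕ in atTop,
      (N : ℝ) ^ (-1 - s / (d : ℝ)) * Ecube d s N ≤ hi :=
    ⟨_, Cube.step hd0 hs one_pos (g := 1 / 2) (by norm_num) (by norm_num) one_pos⟩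
  obtain ⟨C, hC⟩ := conv (fun N : ℕ => (N : ℝ) ^ (-1 - s / (d : ℝ)) * Ecube d s N) 0 hi
    (Eventually.of_forall hpos) hhi (by
      intro ε hε
      have h1 : Tendsto (fun g : ℝ => ((1 - g) ^ (-s) - 1) * hi) (𝓝[>] 0)
          (𝓝 (((1 - 0) ^ (-s) - 1) * hi)) :=
        ((((tendsto_const_nhds.sub tendsto_id).rpow_const (Or.inl (by norm_num))).sub
          tendsto_const_nhds).mul_const hi).mono_left nhdsWithin_le_nhds
      rw [sub_zero, Real.one_rpow, sub_self, zero_mul] at h1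
      obtain ⟨g, hg1, hg2⟩ := ((h1.eventually (gt_mem_nhds (show (0 : ℝ) < ε / 3 by linarith))).and
        (Ioo_mem_nhdsGT (show (0 : ℝ) < 1 by norm_num))).exists
      have h2 : Tendsto (fun n : ℕ => (n : ℝ) ^ (1 - s / (d : ℝ)) *
          (g ^ (-s) * (∑' z, Cube.fw (s / d) z) ^ d)) atTop
          (𝓝 (0 * (g ^ (-s) * (∑' z, Cube.fw (s / d) z) ^ d))) := by
        refine Tendsto.mul_const _ ?_
        have h3 : 0 < s / d - 1 := by rwa [sub_pos, one_lt_div hd']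
        have := (tendsto_rpow_neg_atTop h3).comp tendsto_natCast_atTop_atTop
        rwa [neg_sub] at this
      rw [zero_mul] at h2
      obtain ⟨N₀, hN₀⟩ := eventually_atTop.1 (((h2.eventually
        (gt_mem_nhds (show (0 : ℝ) < ε / 3 by linarith))).and hhi).and (eventually_gt_atTop 0))
      refine ⟨N₀, fun n hn => ?_⟩
      obtain ⟨⟨a1, a2⟩, a3⟩ := hN₀ n hn
      filter_upwards [Cube.step hd0 hs a3 hg2.1 hg2.2 (show (0 : ℝ) < ε / 3 by linarith)]
        with N hN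
      have a4 : 1 ≤ (1 - g) ^ (-s) :=
        Real.one_le_rpow_of_pos_of_le_one_of_nonpos (by linarith [hg2.2]) (by linarith [hg2.1])
          (by linarith)
      have a5 := mul_le_mul_of_nonneg_left a2 (sub_nonneg.2 a4)
      linarith)
  exact ⟨C, ge_of_tendsto' hC hpos, hC⟩

end Pool.Agent.H734Z.RS
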