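import Pool.Agent.Helper88.SE.Defs

set_option autoImplicit false

open MeasureTheory Set Filter Topology
open scoped ENNReal
open Pool.Agent.Helper88.SE

namespace Pool.Agent.H734Z.RS

/-! ## Definitions -/

/-- Mean of a radial kernel over the sphere. -/
noncomputable def zm (d : ℕ) (k : ℝ → ℝ) : ℝ :=
  ∫ x : S d, ∫ y : S d, k (dist x y) ∂(sg d) ∂(sg d)

/-- Centred pair sum (diagonal included). -/
noncomputable def SK {d N : ℕ} (k : ℝ → ℝ) (x : Fin N → S d) : ℝ :=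
  (∑ i, ∑ j, k (dist (x i) (x j))) - (N : ℝ) ^ 2 * zm d k

/-- Absolute pair sum (diagonal included). -/
noncomputable def PS {d N : ℕ} (k : ℝ → ℝ) (x : Fin N → S d) : ℝ :=
  (∑ i, ∑ j, k (dist (x i) (x j))) + (N : ℝ) ^ 2 * zm d k

/-- Deficiency `N² V - ∑ |x_i - x_j|^α`. -/
noncomputable def Df {d N : ℕ} (α : ℝ) (x : Fin N → S d) : ℝ := -SK (fun r => r ^ α) x

/-- Minimal deficiency. -/
noncomputable def Dm (d : ℕ) (α : ℝ) (N : ℕ) : ℝ := ⨅ x : Fin N → S d, Df α x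

/-- Mean of the Gaussian kernel. -/
noncomputable def mg (d : ℕ) (u : ℝ) : ℝ := zm d (fun r => Real.exp (-(u * r ^ 2)))

/-- Centred Gaussian pair sum. -/
noncomputable def Qg {d N : ℕ} (v : ℝ) (x : Fin N → S d) : ℝ :=
  SK (fun r => Real.exp (-(v * r ^ 2))) x

/-- Normalising constant of the Gaussian mixture for `r^α`. -/
noncomputable def cA (α : ℝ) : ℝ :=
  (∫ v in Ioi (0 : ℝ), (1 - Real.exp (-v)) * v ^ (-1 - α / 2))⁻¹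

/-- Mixture weight of the screened kernel. -/
noncomputable def Wt (d : ℕ) (α a w : ℝ) : ℝ :=
  w ^ (-1 - α / 2) * (1 - 2 * (max (1 - w / a) 0) ^ (((d : ℝ) + α) / 2 - 1) +
    (max (1 - 2 * w / a) 0) ^ (((d : ℝ) + α) / 2 - 1))

/-- The flat screened kernel. -/
noncomputable def Gf (d : ℕ) (α a r : ℝ) : ℝ :=
  cA α * ∫ w in Ioi (0 : ℝ), Wt d α a w * Real.exp (-(w * r ^ 2))

/-- The flat screened Gaussian. -/
noncomputable def Gv (d : ℕ) (a v r : ℝ) : ℝ :=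
  Real.exp (-(v * r ^ 2)) -
    2 * ((a / (a + v)) ^ ((d : ℝ) / 2) * Real.exp (-(v * a / (a + v) * r ^ 2))) +
    (a / (a + 2 * v)) ^ ((d : ℝ) / 2) * Real.exp (-(v * a / (a + 2 * v) * r ^ 2))

/-- Subordination density. -/
noncomputable def pv (lam u : ℝ) : ℝ :=
  lam / (2 * Real.sqrt Real.pi) * u ^ (-(3 / 2 : ℝ)) * Real.exp (-(lam ^ 2 / (4 * u)))

/-- Gaussian smoothing on the sphere. -/
noncomputable def Tm {d : ℕ} {H : Type} [NormedAddCommGroup H] [NormedSpace ℝ H] (a : ℝ)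
    (F : S d → H) (x : S d) : H :=
  (mg d a)⁻¹ • ∫ z, Real.exp (-(a * dist x z ^ 2)) • F z ∂(sg d)

/-- Centred vector of a rotated configuration. -/
noncomputable def cv {d N : ℕ} {H : Type} [NormedAddCommGroup H] [NormedSpace ℝ H]
    (F : S d → H) (x : Fin N → S d) (g : Iso d) : H :=
  (∑ i, F (rot g (x i))) - (N : ℝ) • ∫ u, F u ∂(sg d)

/-- `F ∘ ψ` cut to the preimage of the cell `C`. -/
noncomputable def cf {d : ℕ} {H : Type} [Zero H] (ψ : S d → S d) (C : Set (S d))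
    (F : S d → H) : S d → H :=
  (ψ ⁻¹' C).indicator (fun X => F (ψ X))

/-- Mean square of the centred vector of a cell. -/
noncomputable def ce {d N : ℕ} {Ω : Type} [MeasurableSpace Ω] (P : Measure Ω) (G : Ω → Iso d)
    (x : Fin N → S d) {H : Type} [NormedAddCommGroup H] [NormedSpace ℝ H]
    (ψ : S d → S d) (C : Set (S d)) (F : S d → H) : ℝ :=
  ∫ ω, ‖cv (cf ψ C F) x (G ω)‖ ^ 2 ∂P

/-- Background mass of a cell. -/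
noncomputable def bm {d : ℕ} (N : ℕ) (ψ : S d → S d) (C : Set (S d)) : ℝ :=
  (N : ℝ) * (sg d (ψ ⁻¹' C)).toReal

/-- Rotation average of the centred double sum of a kernel. -/
noncomputable def LL {d N : ℕ} {Ω : Type} [MeasurableSpace Ω] (P : Measure Ω) (G : Ω → Iso d)
    (x : Fin N → S d) (h : S d → S d → ℝ) : ℝ :=
  (∑ i, ∑ j, ∫ ω, h (rot (G ω) (x i)) (rot (G ω) (x j)) ∂P) -
    (N : ℝ) ^ 2 * ∫ u, ∫ v, h u v ∂(sg d) ∂(sg d)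

/-- Embedding for the kernel `-|x-y|^α`. -/
def IsEmb {d : ℕ} {H : Type} [NormedAddCommGroup H] (α : ℝ) (Φ : S d → H) : Prop :=
  Continuous Φ ∧ ∀ x y, ‖Φ x - Φ y‖ ^ 2 = 2 * dist x y ^ α

/-- Embedding for the Gaussian kernel. -/
def IsGau {d : ℕ} {H : Type} [NormedAddCommGroup H] [InnerProductSpace ℝ H] (a : ℝ)
    (Γ : S d → H) : Prop :=
  Continuous Γ ∧ ∀ x y, inner ℝ (Γ x) (Γ y) = Real.exp (-(a * dist x y ^ 2))

/-- A uniform random rotation (see `Helper88.SE.exists_haar`). -/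
structure Haar {d : ℕ} {Ω : Type} [MeasurableSpace Ω] (P : Measure Ω) (G : Ω → Iso d) : Prop where
  prob : IsProbabilityMeasure P
  meas : Measurable (fun p : Ω × S d => rot (G p.1) p.2)
  law : ∀ (x : S d) (f : S d → ℝ≥0∞), Measurable f →
    ∫⁻ ω, f (rot (G ω) x) ∂P = ∫⁻ y, f y ∂(sg d)

/-- A random tessellation with margin `m`. -/
structure Hyp {d k : ℕ} {Ω : Type} [MeasurableSpace Ω] (P : Measure Ω)
    (A : Ω → S d → Option (Fin k → Bool)) (γ : ℝ → ℝ) (m : ℝ) : Prop where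
  prob : IsProbabilityMeasure P
  meas : ∀ b, MeasurableSet {p : Ω × S d | A p.1 p.2 = some b}
  law : ∀ u v, P {ω | ∃ b, A ω u = some b ∧ A ω v = some b} = ENNReal.ofReal (γ (dist u v))
  sep : ∀ ω u v b b', A ω u = some b → A ω v = some b' → b ≠ b' → 2 * m ≤ dist u v

/-- The jitter property with constant `C`. -/
def Jit {d : ℕ} {H : Type} [NormedAddCommGroup H] [NormedSpace ℝ H] (α C : ℝ)
    (Φ : S d → H) : Prop :=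
  ∀ (M : ℕ) (ρ : Measure (S d)), ρ univ = M → ∀ z : H, ∃ y : Fin M → S d,
    ‖z + (∑ i, Φ (y i)) - ∫ u, Φ u ∂ρ‖ ^ 2 ≤ ‖z‖ ^ 2 + C * (M : ℝ) ^ (1 - α / d)

/-- The packing property with constant `PK`. -/
def Pack (d : ℕ) (a κ PK : ℝ) : Prop :=
  ∀ (ι : Type) (J : Finset ι) (y : ι → S d) (z : S d), (∀ c ∈ J, κ ≤ dist z (y c)) →
    (∀ c ∈ J, ∀ c' ∈ J, c ≠ c' → 2 * κ ≤ dist (y c) (y c')) →
    ∑ c ∈ J, Real.exp (-(a * dist z (y c) ^ 2)) ≤ PK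

/-- Surface area of the unit sphere `S^d`. -/
noncomputable def om (d : ℕ) : ℝ :=
  2 * Real.pi ^ (((d : ℝ) + 1) / 2) / Real.Gamma (((d : ℝ) + 1) / 2)

/-- The continuous energy in closed form. -/
noncomputable def Vs (d : ℕ) (s : ℝ) : ℝ :=
  (2 : ℝ) ^ ((d : ℝ) - s - 1) * Real.Gamma (((d : ℝ) + 1) / 2) * Real.Gamma (((d : ℝ) - s) / 2) /
    (Real.sqrt Real.pi * Real.Gamma ((d : ℝ) - s / 2))

/-- Euclidean distance of two vectors of coordinates. -/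
noncomputable def ed {d : ℕ} (u v : Fin d → ℝ) : ℝ := Real.sqrt (∑ k : Fin d, (u k - v k) ^ 2)

/-- The unit cube. -/
def cube (d : ℕ) : Set (Fin d → ℝ) := {u | ∀ k, 0 ≤ u k ∧ u k ≤ 1}

/-- Minimal Riesz energy in the unit cube. -/
noncomputable def Ecube (d : ℕ) (s : ℝ) (N : ℕ) : ℝ :=
  ⨅ x : {x : Fin N → Fin d → ℝ // Function.Injective x ∧ ∀ i k, 0 ≤ x i k ∧ x i k ≤ 1},
    ∑ i : Fin N, ∑ j ∈ Finset.univ.erase i,
      (Real.sqrt (∑ k : Fin d, (x.1 i k - x.1 j k) ^ 2)) ^ (-s)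

/-! ## Statements: outer pieces -/

/-- Closed form of the continuous energy. -/
def StV (d : ℕ) (s : ℝ) : Prop := zm d (fun r => r ^ (-s)) = Vs d s

/-- The cube limit. -/
def StCube (d : ℕ) (s C : ℝ) : Prop :=
  Tendsto (fun N : ℕ => (N : ℝ) ^ (-1 - s / (d : ℝ)) * Ecube d s N) atTop (𝓝 C)

/-- Small almost isometric cubes on the sphere. -/
def StCubeChart (d : ℕ) : Prop :=
  ∀ ε : ℝ, 0 < ε → ∃ a₀ : ℝ, 0 < a₀ ∧ ∀ a : ℝ, 0 < a → a ≤ a₀ → ∀ p : S d,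
    ∃ φ : (Fin d → ℝ) → S d, Continuous φ ∧
      (∀ u ∈ cube d, ∀ v ∈ cube d, (1 - ε) * a * ed u v ≤ dist (φ u) (φ v) ∧
        dist (φ u) (φ v) ≤ (1 + ε) * a * ed u v) ∧
      (1 - ε) * (a ^ d / om d) ≤ (sg d (φ '' cube d)).toReal ∧
      (sg d (φ '' cube d)).toReal ≤ (1 + ε) * (a ^ d / om d) ∧
      Metric.closedBall p (a / 4) ⊆ φ '' cube d ∧ φ '' cube d ⊆ Metric.closedBall p (d * a)

/-- Lower half of the hypersingular limit on the sphere. -/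
def StLow (d : ℕ) (s C : ℝ) : Prop :=
  ∀ ε : ℝ, 0 < ε → ∀ᶠ N : ℕ in atTop,
    om d ^ (-s / (d : ℝ)) * C - ε ≤ Em d s N / (N : ℝ) ^ (1 + s / (d : ℝ))

/-- Upper half of the hypersingular limit on the sphere. -/
def StUp (d : ℕ) (s C : ℝ) : Prop :=
  ∀ ε : ℝ, 0 < ε → ∀ᶠ N : ℕ in atTop,
    Em d s N / (N : ℝ) ^ (1 + s / (d : ℝ)) ≤ om d ^ (-s / (d : ℝ)) * C + ε

/-- The limit for the sums of powers of distances. -/
def StNeg (d : ℕ) (α : ℝ) : Prop :=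
  (∀ (N : ℕ) (x : Fin N → S d), 0 ≤ Df α x) ∧
  ∃ C : ℝ, Tendsto (fun N : ℕ => Dm d α N / (N : ℝ) ^ (1 - α / (d : ℝ))) atTop (𝓝 C)

/-! ## Statements: analytic pieces -/

/-- Gaussian mixture for `r^α`. -/
def StMel (α : ℝ) : Prop :=
  0 < cA α ∧ ∀ r : ℝ, 0 ≤ r →
    IntegrableOn (fun v : ℝ => (1 - Real.exp (-(v * r ^ 2))) * v ^ (-1 - α / 2)) (Ioi 0) ∧
    r ^ α = cA α * ∫ v in Ioi (0 : ℝ), (1 - Real.exp (-(v * r ^ 2))) * v ^ (-1 - α / 2)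

/-- Hilbert space embedding of the Gaussian kernel. -/
def StGau (d : ℕ) : Prop :=
  ∀ a : ℝ, 0 ≤ a → ∃ (H : Type) (_ : NormedAddCommGroup H) (_ : InnerProductSpace ℝ H)
    (_ : CompleteSpace H) (Γ : S d → H), IsGau a Γ

/-- Hilbert space embedding of the kernel `-|x-y|^α`. -/
def StEmb (d : ℕ) (α : ℝ) : Prop :=
  ∃ (H : Type) (_ : NormedAddCommGroup H) (_ : InnerProductSpace ℝ H)
    (_ : CompleteSpace H) (Φ : S d → H), IsEmb α Φ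

/-- The deficiency as a squared norm. -/
def StDfN (d : ℕ) (α : ℝ) : Prop :=
  ∀ (H : Type) [NormedAddCommGroup H] [InnerProductSpace ℝ H] [CompleteSpace H] (Φ : S d → H),
    IsEmb α Φ → ∀ (N : ℕ) (x : Fin N → S d),
      Df α x = ‖(∑ i, Φ (x i)) - (N : ℝ) • ∫ u, Φ u ∂(sg d)‖ ^ 2

/-- The deficiency as a Gaussian mixture. -/
def StDfQ (d : ℕ) (α : ℝ) : Prop :=
  ∀ (N : ℕ) (x : Fin N → S d),
    (∀ v : ℝ, 0 ≤ v → 0 ≤ Qg v x ∧ Qg v x ≤ (N : ℝ) ^ 2) ∧ Continuous (fun v : ℝ => Qg v x) ∧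
    IntegrableOn (fun v : ℝ => Qg v x * v ^ (-1 - α / 2)) (Ioi 0) ∧
    Df α x = cA α * ∫ v in Ioi (0 : ℝ), Qg v x * v ^ (-1 - α / 2)

/-- Gaussian means on the sphere. -/
def StMg (d : ℕ) : Prop :=
  (∀ (u : ℝ) (x : S d), ∫ z, Real.exp (-(u * dist x z ^ 2)) ∂(sg d) = mg d u) ∧
  (∀ u : ℝ, 0 < mg d u) ∧ (∀ u : ℝ, 0 ≤ u → mg d u ≤ 1) ∧
  (∃ c₀ : ℝ, 0 < c₀ ∧ Tendsto (fun u : ℝ => u ^ ((d : ℝ) / 2) * mg d u) atTop (𝓝 c₀)) ∧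
  ∃ c C : ℝ, 0 < c ∧ 0 < C ∧ (∀ u : ℝ, 0 < u → mg d u ≤ C * u ^ (-((d : ℝ) / 2))) ∧
    ∀ u : ℝ, 1 ≤ u → c * u ^ (-((d : ℝ) / 2)) ≤ mg d u

/-- Convolution of narrow Gaussians on the sphere. -/
def StConv (d : ℕ) : Prop :=
  ∀ V A : ℝ, 0 < V → 0 < A → ∀ ε : ℝ, 0 < ε → ∀ᶠ t : ℝ in atTop, ∀ x y : S d,
    |Tm (A * t) (fun z => Real.exp (-(V * t * dist x z ^ 2))) y -
      (A / (A + V)) ^ ((d : ℝ) / 2) * Real.exp (-(V * A / (A + V) * t * dist x y ^ 2))| ≤ ε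

/-- One-dimensional facts on the weight. -/
def StW (d : ℕ) (α : ℝ) : Prop :=
  ∃ C : ℝ, 0 < C ∧ ∀ a : ℝ, 0 < a →
    (∀ w : ℝ, 0 < w → Wt d α a w ≤ w ^ (-1 - α / 2) ∧ |Wt d α a w| ≤ w ^ (-1 - α / 2) ∧
      |Wt d α a w| ≤ C * w ^ (-(α / 2)) / a) ∧
    IntegrableOn (Wt d α a) (Ioi 0) ∧
    ∫ w in Ioi (0 : ℝ), |Wt d α a w| ≤ C * a ^ (-(α / 2)) ∧
    (∀ v r : ℝ, 0 < v → |Gv d a v r| ≤ 4 ∧ |Gv d a v r| ≤ C * v / a) ∧
    (∀ r : ℝ, ∫ v in Ioi (0 : ℝ), Gv d a v r * v ^ (-1 - α / 2) =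
      ∫ w in Ioi (0 : ℝ), Wt d α a w * Real.exp (-(w * r ^ 2)))

/-- Size, measurability and modulus of the cut-off screened kernels. -/
def StMod (d : ℕ) (α : ℝ) : Prop :=
  ∀ a : ℝ, 0 < a → ∃ K : ℝ, 1 ≤ K ∧ Measurable (Gf d α a) ∧ (∀ r, |Gf d α a r| ≤ K) ∧
    ∀ lam ρ r r' : ℝ, 0 ≤ lam → 0 ≤ ρ → ρ ≤ 1 → 0 ≤ r → r / (1 + ρ ^ 2) ≤ r' →
      r' ≤ r * (1 + ρ ^ 2) →
      |Gf d α a r' * Real.exp (-(lam * r')) - Gf d α a r * Real.exp (-(lam * r))| ≤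
        3 * K * ρ ^ 2 ∧
      |(Real.exp (-(a * r' ^ 2)) + 1) * Real.exp (-(lam * r')) -
        (Real.exp (-(a * r ^ 2)) + 1) * Real.exp (-(lam * r))| ≤ 6 * ρ ^ 2

/-- The screened kernel of a large sphere is the flat one. -/
def StGN (d : ℕ) (α : ℝ) : Prop :=
  ∀ a : ℝ, 0 < a → ∀ ε : ℝ, 0 < ε → ∀ᶠ s : ℝ in atTop,
    ∀ (H : Type) [NormedAddCommGroup H] [InnerProductSpace ℝ H] [CompleteSpace H] (Φ : S d → H),
      IsEmb α Φ → ∀ x y : S d,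
        |s ^ α * inner ℝ (Φ x - Tm (a * s ^ 2) Φ x) (Φ y - Tm (a * s ^ 2) Φ y) -
          Gf d α a (s * dist x y)| ≤ ε

/-- Subordination formula. -/
def StSub : Prop :=
  ∀ lam : ℝ, 0 < lam →
    (∀ u : ℝ, 0 < u → 0 ≤ pv lam u ∧ pv lam u ≤ lam * u ^ (-(3 / 2 : ℝ)) ∧
      pv lam u ≤ 8 / lam ^ 2) ∧
    ∀ r : ℝ, 0 ≤ r →
      IntegrableOn (fun u => pv lam u * Real.exp (-(u * r ^ 2))) (Ioi 0) ∧
      ∫ u in Ioi (0 : ℝ), pv lam u * Real.exp (-(u * r ^ 2)) = Real.exp (-(lam * r))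

/-- Absolute pair sums. -/
def StNS3 (d : ℕ) (α : ℝ) : Prop :=
  (∃ C : ℝ, 0 < C ∧ ∀ (N : ℕ) (x : Fin N → S d) (s : ℝ), 1 ≤ N → s = (N : ℝ) ^ (1 / (d : ℝ)) →
    (∀ v : ℝ, 0 < v → PS (fun r => Real.exp (-(v * (s * r) ^ 2))) x ≤
      C * (1 + v ^ (-((d : ℝ) / 2))) * (N + s ^ α * Df α x)) ∧
    ∀ t : ℝ, 1 ≤ s * t →
      PS (fun r => if r ≤ t then 1 else 0) x ≤ C * (s * t) ^ d * (N + s ^ α * Df α x)) ∧
  (∀ lam : ℝ, 0 < lam → ∃ C : ℝ, 0 < C ∧ ∀ (N : ℕ) (x : Fin N → S d) (s : ℝ), 1 ≤ N →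
    s = (N : ℝ) ^ (1 / (d : ℝ)) →
    PS (fun r => Real.exp (-(lam * (s * r)))) x ≤ C * (N + s ^ α * Df α x))

/-- The screened, cut-off energy is at most the deficiency. -/
def StNS1 (d : ℕ) (α : ℝ) : Prop :=
  ∀ ε : ℝ, 0 < ε → ∃ δ : ℝ, 0 < δ ∧ ∀ a lam : ℝ, 0 < a → a ≤ 1 → 0 < lam →
    lam * a ^ (-(1 / 2 : ℝ)) ≤ δ → lam * a ^ (-(α / 2)) ≤ δ →
    ∀ (N : ℕ) (x : Fin N → S d) (s : ℝ), 1 ≤ N → s = (N : ℝ) ^ (1 / (d : ℝ)) →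
      SK (fun r => Gf d α a (s * r) * Real.exp (-(lam * (s * r)))) x ≤
        s ^ α * Df α x + ε * (N + s ^ α * Df α x)

/-- The cut-off Gaussian energy is bounded. -/
def StNS2 (d : ℕ) (α : ℝ) : Prop :=
  ∃ C : ℝ, 0 < C ∧ ∀ a lam : ℝ, 0 < a → a ≤ 1 → 0 < lam →
    lam * a ^ (-(1 / 2 : ℝ)) ≤ 1 → a ^ (1 + α / 2) ≤ lam ^ 2 →
    ∀ (N : ℕ) (x : Fin N → S d) (s : ℝ), 1 ≤ N → s = (N : ℝ) ^ (1 / (d : ℝ)) →
      SK (fun r => (Real.exp (-(a * (s * r) ^ 2)) + 1) * Real.exp (-(lam * (s * r)))) x ≤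
        C * (N + s ^ α * Df α x)

/-! ## Statements: geometric and probabilistic pieces -/

/-- Jittered sampling of an arbitrary measure. -/
def StJit (d : ℕ) (α : ℝ) : Prop :=
  ∃ C : ℝ, 0 < C ∧
    ∀ (H : Type) [NormedAddCommGroup H] [InnerProductSpace ℝ H] [CompleteSpace H] (Φ : S d → H),
      IsEmb α Φ → Jit α C Φ

/-- Derandomisation of independent centred vectors. -/
def StDer : Prop :=
  ∀ (H : Type) [NormedAddCommGroup H] [InnerProductSpace ℝ H] [CompleteSpace H]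
    (Ω : Type) [MeasurableSpace Ω] (P : Measure Ω) [IsProbabilityMeasure P]
    (ι : Type) [Fintype ι] (X : ι → Ω → H) (f : ι → Ω → ℝ),
    (∀ c, StronglyMeasurable (X c)) → (∀ c, ∃ B : ℝ, ∀ ω, ‖X c ω‖ ≤ B) →
    (∀ c, Integrable (f c) P) →
    ∃ ω : ι → Ω, ‖∑ c, (X c (ω c) - ∫ w, X c w ∂P)‖ ^ 2 + ∑ c, f c (ω c) ≤
      ∑ c, (∫ w, ‖X c w‖ ^ 2 ∂P + ∫ w, f c w ∂P)

/-- Random hyperplanes with a margin. -/
def StHyp (d : ℕ) : Prop :=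
  ∃ κ₀ : ℝ, 0 < κ₀ ∧ κ₀ ≤ 1 / 4 ∧ ∀ (k : ℕ) (m : ℝ), 0 ≤ m → m ≤ 1 →
    ∃ (Ω : Type) (_ : MeasurableSpace Ω) (P : Measure Ω) (A : Ω → S d → Option (Fin k → Bool)),
      Hyp P A (fun r => (1 - κ₀ * r - m / 2) ^ k) m

/-- A coarse partition with a thin boundary layer. -/
def StGrid (d : ℕ) : Prop :=
  ∃ C : ℝ, 0 < C ∧ ∀ δ m₀ m₁ : ℝ, 0 < δ → 0 < m₀ → m₀ ≤ m₁ →
    ∃ (M : ℕ) (p : Fin M → S d) (B B' : Fin M → Set (S d)),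
      (∀ l, MeasurableSet (B l) ∧ MeasurableSet (B' l) ∧ B' l ⊆ B l ∧
        B l ⊆ Metric.closedBall (p l) δ) ∧
      (∀ l l', l ≠ l' → ∀ u ∈ B l, ∀ v ∈ B l', m₀ ≤ dist u v) ∧
      (∀ l, ∀ u ∈ B' l, ∀ v, dist u v ≤ m₁ - m₀ → v ∈ B l) ∧
      1 - C * m₁ / δ ≤ ∑ l, (sg d (B' l)).toReal

/-- Gaussian sums over separated points. -/
def StPack (d : ℕ) : Prop :=
  ∃ c : ℝ, 0 < c ∧ ∀ a κ : ℝ, 0 < a → 0 < κ → κ ≤ 1 →
    Pack d a κ (Real.exp (-(a * κ ^ 2 / 2)) * mg d (a / 8) / (c * κ ^ d))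

/-- The scaling chart. -/
def StChart (d : ℕ) : Prop :=
  ∀ (p : S d) (r ρ : ℝ), 0 < r → r ≤ 1 → 0 < ρ → ρ ≤ 1 →
    Measurable (psi p r) ∧
    (∀ X, dist (psi p r X) p ≤ r * ρ / 8 → dist X p ≤ ρ / 4) ∧
    (∀ X Y, dist X p ≤ ρ / 2 → dist Y p ≤ ρ / 2 →
      r / (1 + ρ ^ 2) * dist X Y ≤ dist (psi p r X) (psi p r Y) ∧
      dist (psi p r X) (psi p r Y) ≤ r * (1 + ρ ^ 2) * dist X Y) ∧
    ∀ C : Set (S d), MeasurableSet C → C ⊆ Metric.closedBall p (r * ρ / 8) →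
      ((sg d).restrict (psi p r ⁻¹' C)).map (psi p r) ≤
        ENNReal.ofReal (r ^ (-(d : ℝ))) • (sg d).restrict C ∧
      (sg d (psi p r ⁻¹' C)).toReal ≤ r ^ (-(d : ℝ)) * (sg d C).toReal ∧
      (1 + ρ ^ 2) ^ (-(((d : ℝ) + 1) / 2)) * r ^ (-(d : ℝ)) * (sg d C).toReal ≤
        (sg d (psi p r ⁻¹' C)).toReal

/-- Comparison of a localised kernel with a radial one. -/
def StTrans (d : ℕ) : Prop :=
  ∀ (Ω : Type) [MeasurableSpace Ω] (P : Measure Ω) (G : Ω → Iso d), Haar P G →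
  ∀ (N : ℕ) (x : Fin N → S d) (U U' : Set (S d)) (h : S d → S d → ℝ) (k : ℝ → ℝ)
    (ε₁ K lam t R : ℝ), MeasurableSet U → MeasurableSet U' → U' ⊆ U →
    Measurable (fun p : S d × S d => h p.1 p.2) → (∃ B : ℝ, ∀ u v, |h u v| ≤ B) → Measurable k →
    0 ≤ ε₁ → 0 ≤ K → 0 ≤ lam → 0 ≤ R →
    (∀ u ∈ U, ∀ v ∈ U, |h u v - k (dist u v)| ≤ ε₁ ∧ dist u v ≤ t) →
    (∀ r, 0 ≤ r → |k r| ≤ K * Real.exp (-(lam * r))) →
    (∀ u ∈ U', ∀ v, dist u v ≤ R → v ∈ U) →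
    LL P G x (fun u v => U.indicator 1 u * U.indicator 1 v * h u v) ≤
      (sg d U).toReal * SK k x +
      ε₁ * (sg d U).toReal * PS (fun r => if r ≤ t then 1 else 0) x +
      K * (((sg d U).toReal - (sg d U').toReal) + (sg d U).toReal * Real.exp (-(lam * R / 2))) *
        PS (fun r => Real.exp (-(lam / 2 * r))) x

/-- Averaging the cell energies over the tessellation. -/
def StAvg (d : ℕ) : Prop :=
  ∀ (Ω : Type) [MeasurableSpace Ω] (P : Measure Ω) (G : Ω → Iso d), Haar P G →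
  ∀ (k : ℕ) (Ω' : Type) [MeasurableSpace Ω'] (P' : Measure Ω')
    (A : Ω' → S d → Option (Fin k → Bool)) (γ : ℝ → ℝ) (m : ℝ), Hyp P' A γ m →
    Measurable γ → (∀ r, 0 ≤ r → r ≤ 2 → 0 ≤ γ r) →
  ∀ (N : ℕ) (x : Fin N → S d) (ψ : S d → S d) (B : Set (S d)), Measurable ψ → MeasurableSet B →
    (∀ (H : Type) [NormedAddCommGroup H] [InnerProductSpace ℝ H] [CompleteSpace H]
      (F : S d → H), Continuous F →
      Integrable (fun ω' => ∑ b, ce P G x ψ (B ∩ {u | A ω' u = some b}) F) P' ∧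
      ∫ ω', ∑ b, ce P G x ψ (B ∩ {u | A ω' u = some b}) F ∂P' =
        LL P G x (fun u v => (ψ ⁻¹' B).indicator 1 u * (ψ ⁻¹' B).indicator 1 v *
          (γ (dist (ψ u) (ψ v)) * inner ℝ (F (ψ u)) (F (ψ v))))) ∧
    (Integrable (fun ω' => ∑ b, bm N ψ (B ∩ {u | A ω' u = some b})) P' ∧
      ∫ ω', ∑ b, bm N ψ (B ∩ {u | A ω' u = some b}) ∂P' = γ 0 * bm N ψ B) ∧
    (Integrable (fun ω' => ∑ b, bm N ψ (B ∩ {u | A ω' u = some b}) ^ 2) P' ∧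
      ∫ ω', ∑ b, bm N ψ (B ∩ {u | A ω' u = some b}) ^ 2 ∂P' =
        (N : ℝ) ^ 2 * ∫ u, ∫ v, (ψ ⁻¹' B).indicator 1 u * (ψ ⁻¹' B).indicator 1 v *
          γ (dist (ψ u) (ψ v)) ∂(sg d) ∂(sg d))

/-- The compensating measure. -/
def StPos (d : ℕ) : Prop :=
  ∀ (Ω : Type) [MeasurableSpace Ω] (P : Measure Ω) (G : Ω → Iso d), Haar P G →
  ∀ (H' : Type) [NormedAddCommGroup H'] [InnerProductSpace ℝ H'] [CompleteSpace H']
    (a : ℝ) (Γ : S d → H'), 0 < a → IsGau a Γ →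
  ∀ (n N : ℕ) (x : Fin N → S d) (ι : Type) [Fintype ι] (ψ : ι → S d → S d) (C : ι → Set (S d))
    (I : ι → Set Ω) (κ θ η η' M PK : ℝ),
    (∀ c, Measurable (ψ c) ∧ MeasurableSet (C c) ∧ MeasurableSet (I c)) →
    0 < κ → 0 ≤ θ → 0 ≤ η → η ≤ 1 → 0 ≤ η' → 0 ≤ M → (1 + η') * (1 - η) ≤ 1 - η / 2 →
    (∀ c c', c ≠ c' → ∀ u ∈ C c, ∀ v ∈ C c', 2 * κ ≤ dist u v) →
    (∀ c, (N : ℝ≥0∞) • ((sg d).restrict (ψ c ⁻¹' C c)).map (ψ c) ≤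
      ENNReal.ofReal ((1 - η) * n) • (sg d).restrict (C c)) →
    (∀ c, bm N (ψ c) (C c) ≤ M ∧ 1 - η' ≤ (P (I c)).toReal ∧ ∀ ω ∈ I c,
      ‖cv (cf (ψ c) (C c) Γ) x (G ω)‖ ≤ θ ∧ |cv (cf (ψ c) (C c) (fun _ => (1 : ℝ))) x (G ω)| ≤ θ) →
    Pack d a κ PK →
    2 * θ + (M + θ) * PK + n * (Real.exp (-(a * κ ^ 2 / 2)) * mg d (a / 2)) ≤
      η / 2 * n * mg d a →
    ∀ ω : ι → Ω, ∃ ρ : Measure (S d), IsFiniteMeasure ρ ∧
      ∀ (H : Type) [NormedAddCommGroup H] [NormedSpace ℝ H] [CompleteSpace H] (F : S d → H),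
        Continuous F →
        (∑ c, (I c).indicator (fun w => ∑ i, cf (ψ c) (C c) F (rot (G w) (x i))) (ω c)) +
            ∫ u, F u ∂ρ - (n : ℝ) • ∫ u, F u ∂(sg d) =
          ∑ c, ((I c).indicator (fun w => cv (cf (ψ c) (C c) (F - Tm a F)) x (G w)) (ω c) -
            ∫ w, (I c).indicator (fun w => cv (cf (ψ c) (C c) (F - Tm a F)) x (G w)) w ∂P)

/-- The construction for a given family of cells. -/
def StCore (d : ℕ) (α : ℝ) : Prop :=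
  ∀ (Ω : Type) [MeasurableSpace Ω] (P : Measure Ω) (G : Ω → Iso d), Haar P G →
  ∀ (H : Type) [NormedAddCommGroup H] [InnerProductSpace ℝ H] [CompleteSpace H]
    (Φ : S d → H) (CJ : ℝ), IsEmb α Φ → 0 ≤ CJ → Jit α CJ Φ →
  ∀ (H' : Type) [NormedAddCommGroup H'] [InnerProductSpace ℝ H'] [CompleteSpace H']
    (a : ℝ) (Γ : S d → H'), 0 < a → IsGau a Γ →
  ∀ (n N : ℕ) (x : Fin N → S d) (ι : Type) [Fintype ι] (ψ : ι → S d → S d) (C : ι → Set (S d))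
    (κ θ η η' M PK τ : ℝ), 1 ≤ n →
    (∀ c, Measurable (ψ c) ∧ MeasurableSet (C c)) →
    0 < κ → 0 < θ → 0 ≤ η → η ≤ 1 → 0 < η' → η' ≤ 1 → 0 < M → 0 < τ →
    (1 + η') * (1 - η) ≤ 1 - η / 2 →
    (∀ c c', c ≠ c' → ∀ u ∈ C c, ∀ v ∈ C c', 2 * κ ≤ dist u v) →
    (∀ c, (N : ℝ≥0∞) • ((sg d).restrict (ψ c ⁻¹' C c)).map (ψ c) ≤
      ENNReal.ofReal ((1 - η) * n) • (sg d).restrict (C c)) →
    Pack d a κ PK →
    2 * θ + (M + θ) * PK + n * (Real.exp (-(a * κ ^ 2 / 2)) * mg d (a / 2)) ≤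
      η / 2 * n * mg d a →
    Dm d α n ≤ (∑ c, ce P G x (ψ c) (C c) (Φ - Tm a Φ)) +
      CJ * (τ * n) ^ (1 - α / d) +
      CJ * (τ * n) ^ (-(α / d)) * (n - (1 - η') * (∑ c, bm N (ψ c) (C c)) +
        (∑ c, bm N (ψ c) (C c) ^ 2) / M +
        (M / (η' * θ ^ 2) + 1 / θ) * ∑ c, (ce P G x (ψ c) (C c) Γ +
          ce P G x (ψ c) (C c) (fun _ => (1 : ℝ))))

end Pool.Agent.H734Z.RS
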