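import Mathlib

set_option autoImplicit false

namespace Pool.Agent.H734Z.RS

/-- Choice of the microscopic parameters. -/
def StPar (d : ℕ) (α : ℝ) : Prop :=
  ∀ δ η κ₀ c C cp Cg E : ℝ, 0 < δ → 0 < η → 0 < κ₀ → 0 < c → 0 < C → 0 < cp → 0 < Cg → 0 < E →
    ∃ a lam kt M θ : ℝ, 0 < a ∧ a ≤ 1 ∧ 0 < lam ∧ 1 ≤ kt ∧ 0 < M ∧ 0 < θ ∧
      lam * a ^ (-(1 / 2 : ℝ)) ≤ δ ∧ lam * a ^ (-(α / 2)) ≤ δ ∧ lam * a ^ (-(1 / 2 : ℝ)) ≤ 1 ∧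
      a ^ (1 + α / 2) ≤ lam ^ 2 ∧ lam * kt / (2 * κ₀) ≤ η ∧
      Cg * (lam / 2) ^ (-(d : ℝ)) / M ≤ η ∧ (M / (η / 2 * θ ^ 2) + 1 / θ) * E ≤ η ∧
      2 * θ + (M + θ) * (Real.exp (-(a * kt ^ 2 / 2)) * (C * (a / 8) ^ (-((d : ℝ) / 2))) /
          (cp * kt ^ d)) +
        Real.exp (-(a * kt ^ 2 / 2)) * (2 * C * (a / 2) ^ (-((d : ℝ) / 2))) ≤
        η / 2 * (c * a ^ (-((d : ℝ) / 2)))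

end Pool.Agent.H734Z.RS
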