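import Pool.Agent.H734Z.RS.Defs
import Pool.Agent.Helper88.SE.P_sg_prob
import Pool.Agent.Helper88.SE.P_rot_mp

set_option autoImplicit false
set_option linter.unusedVariables false

open MeasureTheory Set Filter Topology
open scoped ENNReal
open Pool.Agent.Helper88.SE

namespace Pool.Agent.H734Z.RS

namespace DfQ

lemma cint {d : ℕ} {H : Type} [NormedAddCommGroup H] {F : S d → H} (hF : Continuous F) :
    Integrable F (sg d) := by
  have := sg_prob d
  exact hF.integrable_of_hasCompactSupport (HasCompactSupport.of_compactSpace F)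

lemma rad0 {d : ℕ} {k : ℝ → ℝ} (hk : Continuous k) (x x' : S d) :
    ∫ y, k (dist x y) ∂(sg d) = ∫ y, k (dist x' y) ∂(sg d) := by
  have hn : ‖(x : E d)‖ = ‖(x' : E d)‖ := by
    rw [norm_eq_of_mem_sphere, norm_eq_of_mem_sphere]
  obtain ⟨g, hg⟩ : ∃ g : Iso d, g (x : E d) = (x' : E d) :=
    ⟨(Submodule.span ℝ {(x : E d) - (x' : E d)})ᗮ.reflection, Submodule.reflection_sub hn⟩
  have hgx : rot g x = x' := Subtype.ext hg
  have hm : Continuous (fun y : S d => k (dist x' y)) := by fun_prop
  have h1 := integral_map (μ := sg d) (rot_mp d g).measurable.aemeasurable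
    (f := fun y : S d => k (dist x' y)) hm.aestronglyMeasurable
  rw [(rot_mp d g).map_eq] at h1
  rw [h1]
  congr 1
  ext y
  have : dist x' (rot g y) = dist x y := by
    rw [← hgx, Subtype.dist_eq, Subtype.dist_eq]
    exact g.dist_map _ _
  rw [this]

lemma rad {d : ℕ} {k : ℝ → ℝ} (hk : Continuous k) (x : S d) :
    ∫ y, k (dist x y) ∂(sg d) = zm d k := by
  have := sg_prob d
  unfold zm
  have h2 : (fun x' : S d => ∫ y, k (dist x' y) ∂(sg d)) =
      fun _ => ∫ y, k (dist x y) ∂(sg d) := by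
    funext x'
    exact rad0 hk x' x
  rw [h2, integral_const]
  simp

lemma expand {d N : ℕ} {H : Type} [NormedAddCommGroup H] [InnerProductSpace ℝ H] [CompleteSpace H]
    {F : S d → H} (hF : Continuous F) {k : ℝ → ℝ} (hk : Continuous k) {b : S d → ℝ}
    (hb : Continuous b) (h : ∀ x y, inner ℝ (F x) (F y) = b x + b y + k (dist x y))
    (x : Fin N → S d) : ‖(∑ i, F (x i)) - (N : ℝ) • ∫ u, F u ∂(sg d)‖ ^ 2 = SK k x := by
  have := sg_prob d
  set m := ∫ u, F u ∂(sg d) with hm
  set β := ∫ u, b u ∂(sg d) with hβ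
  have h1 : ∀ z, inner ℝ (F z) m = b z + β + zm d k := by
    intro z
    have e1 : Continuous (fun y : S d => k (dist z y)) := by fun_prop
    rw [hm, ← integral_inner (cint hF)]
    simp only [h]
    have e2 : Continuous (fun y : S d => b z + b y) := by fun_prop
    rw [integral_add (cint e2) (cint e1),
      integral_add (integrable_const _) (cint hb), rad hk, integral_const]
    simp [hβ]
  have h2 : inner ℝ m m = 2 * β + zm d k := by
    nth_rewrite 2 [hm]
    rw [← integral_inner (cint hF)]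
    have e1 : ∀ a, inner ℝ m (F a) = b a + (β + zm d k) := fun a => by
      rw [real_inner_comm, h1]
      ring
    simp only [e1]
    rw [integral_add (cint hb) (integrable_const _), integral_const]
    simp only [probReal_univ, smul_eq_mul, one_mul]
    ring
  rw [← real_inner_self_eq_norm_sq, inner_sub_left, inner_sub_right, inner_sub_right,
    real_inner_smul_left, real_inner_smul_left, real_inner_smul_right, real_inner_smul_right,
    real_inner_comm (∑ i, F (x i)) m, h2, sum_inner, sum_inner]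
  simp only [inner_sum, h, h1, SK, Finset.sum_add_distrib, Finset.sum_const, Finset.card_univ,
    Fintype.card_fin, nsmul_eq_mul, ← Finset.mul_sum]
  ring

lemma dist_le_two {d : ℕ} (x y : S d) : dist x y ≤ 2 := by
  rw [Subtype.dist_eq]
  have h := dist_le_norm_add_norm (x : E d) (y : E d)
  rw [norm_eq_of_mem_sphere, norm_eq_of_mem_sphere] at h
  linarith

end DfQ

open DfQ

theorem stDfN (d : ℕ) (hd : 2 ≤ d) (α : ℝ) (h0 : 0 < α) (h2 : α < 2) : StDfN d α := by
  intro H _ _ _ Φ hΦ N x
  have hk : Continuous (fun r : ℝ => -(r ^ α)) := (Real.continuous_rpow_const h0.le).neg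
  have hc := hΦ.1
  rw [expand hc hk (b := fun z => ‖Φ z‖ ^ 2 / 2) (by fun_prop) ?_ x]
  · simp only [Df, SK, zm, integral_neg, Finset.sum_neg_distrib]
    ring
  · intro z y
    have h1 := hΦ.2 z y
    rw [norm_sub_sq_real] at h1
    linarith

theorem stDfQ (d : ℕ) (hd : 2 ≤ d) (α : ℝ) (h0 : 0 < α) (h2 : α < 2) (hM : StMel α)
    (hG : StGau d) : StDfQ d α := by
  intro N x
  have := sg_prob d
  let x0 : S d := ⟨EuclideanSpace.single 0 1, by simp⟩
  have hk : ∀ v : ℝ, Continuous (fun r : ℝ => Real.exp (-(v * r ^ 2))) := fun v => by fun_prop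
  have hz : ∀ v : ℝ, zm d (fun r => Real.exp (-(v * r ^ 2))) =
      ∫ y, Real.exp (-(v * dist x0 y ^ 2)) ∂(sg d) := fun v => (rad (hk v) x0).symm
  let f : ℝ → S d → ℝ := fun v y => (1 - Real.exp (-(v * dist x0 y ^ 2))) * v ^ (-1 - α / 2)
  have hf : Integrable (Function.uncurry f) ((volume.restrict (Ioi (0 : ℝ))).prod (sg d)) := by
    have e1 := (hM.2 2 (by norm_num)).1
    refine Integrable.mono' (Integrable.comp_fst e1 (sg d)) ?_ ?_
    · refine Measurable.aestronglyMeasurable ?_
      simp only [Function.uncurry_def, f]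
      fun_prop
    · have e2 : ∀ᵐ z : ℝ × S d ∂((volume.restrict (Ioi (0 : ℝ))).prod (sg d)), 0 < z.1 :=
        Measure.quasiMeasurePreserving_fst.ae (ae_restrict_mem measurableSet_Ioi)
      filter_upwards [e2] with z hz
      have e3 : 0 ≤ z.1 ^ (-1 - α / 2) := Real.rpow_nonneg hz.le _
      have e4 : Real.exp (-(z.1 * dist x0 z.2 ^ 2)) ≤ 1 :=
        Real.exp_le_one_iff.2 (neg_nonpos.2 (by positivity))
      have e5 : Real.exp (-(z.1 * 2 ^ 2)) ≤ Real.exp (-(z.1 * dist x0 z.2 ^ 2)) := by
        refine Real.exp_le_exp.2 (neg_le_neg (mul_le_mul_of_nonneg_left ?_ hz.le))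
        exact pow_le_pow_left₀ dist_nonneg (dist_le_two _ _) 2
      simp only [Function.uncurry_def, f]
      rw [Real.norm_eq_abs, abs_of_nonneg (mul_nonneg (by linarith) e3)]
      exact mul_le_mul_of_nonneg_right (by linarith) e3
  have hI : ∀ v, ∫ y, f v y ∂(sg d) =
      (1 - zm d (fun r => Real.exp (-(v * r ^ 2)))) * v ^ (-1 - α / 2) := by
    intro v
    have e1 : Continuous (fun y : S d => Real.exp (-(v * dist x0 y ^ 2))) := by fun_prop
    simp only [f]
    rw [integral_mul_const, integral_sub (integrable_const _) (cint e1), hz, integral_const]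
    simp
  have hQ : ∀ v, Qg v x * v ^ (-1 - α / 2) = (N : ℝ) ^ 2 * (∫ y, f v y ∂(sg d)) -
      ∑ i, ∑ j, (1 - Real.exp (-(v * dist (x i) (x j) ^ 2))) * v ^ (-1 - α / 2) := by
    intro v
    simp only [hI, Qg, SK, ← Finset.sum_mul, Finset.sum_sub_distrib, Finset.sum_const,
      Finset.card_univ, Fintype.card_fin, nsmul_eq_mul]
    ring
  have i1 : Integrable (fun v => (N : ℝ) ^ 2 * (∫ y, f v y ∂(sg d)))
      (volume.restrict (Ioi (0 : ℝ))) := hf.integral_prod_left.const_mul _
  have i2 : ∀ i, Integrable (fun v : ℝ =>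
      ∑ j, (1 - Real.exp (-(v * dist (x i) (x j) ^ 2))) * v ^ (-1 - α / 2))
      (volume.restrict (Ioi (0 : ℝ))) := fun i =>
    integrable_finsetSum _ fun j _ => (hM.2 _ dist_nonneg).1
  have i3 := integrable_finsetSum Finset.univ fun i _ => i2 i
  refine ⟨fun v hv => ⟨?_, ?_⟩, ?_, ?_, ?_⟩
  · obtain ⟨H, _, _, _, Γ, hΓ⟩ := hG v hv
    unfold Qg
    rw [← expand hΓ.1 (hk v) (b := fun _ => 0) continuous_const (fun z y => by simp [hΓ.2]) x]
    positivity
  · have e1 : 0 ≤ zm d (fun r => Real.exp (-(v * r ^ 2))) := by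
      rw [hz]
      exact integral_nonneg fun y => (Real.exp_pos _).le
    have e2 : ∑ i, ∑ j, Real.exp (-(v * dist (x i) (x j) ^ 2)) ≤ ∑ i : Fin N, ∑ j : Fin N, (1 : ℝ) :=
      Finset.sum_le_sum fun i _ => Finset.sum_le_sum fun j _ =>
        Real.exp_le_one_iff.2 (neg_nonpos.2 (by positivity))
    simp only [Finset.sum_const, Finset.card_univ, Fintype.card_fin, nsmul_eq_mul, mul_one] at e2
    have e3 : 0 ≤ (N : ℝ) ^ 2 * zm d (fun r => Real.exp (-(v * r ^ 2))) := by positivity
    unfold Qg SK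
    nlinarith
  · have e1 : Continuous (fun v : ℝ => ∫ y in (Set.univ : Set (S d)),
        Real.exp (-(v * dist x0 y ^ 2)) ∂(sg d)) := by
      refine continuous_parametric_integral_of_continuous
        (f := fun (v : ℝ) (y : S d) => Real.exp (-(v * dist x0 y ^ 2))) ?_ isCompact_univ
      simp only [Function.uncurry_def]
      fun_prop
    simp only [Measure.restrict_univ] at e1
    simp only [Qg, SK, hz]
    fun_prop
  · simp only [hQ]
    exact i1.sub i3
  · simp only [hQ]
    rw [integral_sub i1 i3, integral_const_mul, integral_integral_swap hf,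
      integral_finsetSum _ fun i _ => i2 i]
    have e1 : ∀ i, ∫ v in Ioi (0 : ℝ),
        ∑ j, (1 - Real.exp (-(v * dist (x i) (x j) ^ 2))) * v ^ (-1 - α / 2) =
        ∑ j, ∫ v in Ioi (0 : ℝ),
          (1 - Real.exp (-(v * dist (x i) (x j) ^ 2))) * v ^ (-1 - α / 2) := fun i =>
      integral_finsetSum _ fun j _ => (hM.2 _ dist_nonneg).1
    have e2 : zm d (fun r => r ^ α) = cA α * ∫ y, (∫ v in Ioi (0 : ℝ), f v y) ∂(sg d) := by
      rw [← rad (Real.continuous_rpow_const h0.le) x0, ← integral_const_mul]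
      congr 1
      funext y
      exact (hM.2 _ dist_nonneg).2
    have e3 : ∑ i, ∑ j, dist (x i) (x j) ^ α = cA α * ∑ i, ∑ j, ∫ v in Ioi (0 : ℝ),
          (1 - Real.exp (-(v * dist (x i) (x j) ^ 2))) * v ^ (-1 - α / 2) := by
      simp only [Finset.mul_sum]
      exact Finset.sum_congr rfl fun i _ => Finset.sum_congr rfl fun j _ =>
        (hM.2 _ dist_nonneg).2
    simp only [e1, Df, SK]
    rw [e2, e3]
    ring

end Pool.Agent.H734Z.RS
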