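import Pool.Agent.H734Z.RS.Defs

set_option autoImplicit false

open MeasureTheory Set Filter Topology
open Pool.Agent.Helper88.SE

namespace Pool.Agent.H734Z.RS

namespace Emb

/-- positive semidefinite kernels -/
def PD {X : Type} (k : X → X → ℝ) : Prop :=
  ∀ (T : Finset X) (c : X → ℝ), 0 ≤ ∑ x ∈ T, ∑ y ∈ T, c x * c y * k x y

theorem PD.feature {X : Type} {k : X → X → ℝ} (h : PD k) (φ : X → ℝ) :
    PD (fun x y => φ x * φ y * k x y) := by
  intro T c
  refine (h T (fun x => c x * φ x)).trans_eq ?_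
  refine Finset.sum_congr rfl fun x _ => Finset.sum_congr rfl fun y _ => ?_
  ring

theorem PD.sum {X ι : Type} (s : Finset ι) {k : ι → X → X → ℝ} (h : ∀ i ∈ s, PD (k i)) :
    PD (fun x y => ∑ i ∈ s, k i x y) := by
  intro T c
  have e : ∑ x ∈ T, ∑ y ∈ T, c x * c y * ∑ i ∈ s, k i x y =
      ∑ i ∈ s, ∑ x ∈ T, ∑ y ∈ T, c x * c y * k i x y := by
    simp only [Finset.mul_sum]
    rw [Finset.sum_comm (s := s)]
    exact Finset.sum_congr rfl fun x _ => Finset.sum_comm
  rw [e]
  exact Finset.sum_nonneg fun i hi => h i hi T c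

theorem PD.smul {X : Type} {k : X → X → ℝ} (h : PD k) {a : ℝ} (ha : 0 ≤ a) :
    PD (fun x y => a * k x y) := by
  intro T c
  refine (mul_nonneg ha (h T c)).trans_eq ?_
  simp only [Finset.mul_sum]
  refine Finset.sum_congr rfl fun x _ => Finset.sum_congr rfl fun y _ => ?_
  ring

theorem PD_inner {X H : Type} [NormedAddCommGroup H] [InnerProductSpace ℝ H] (F : X → H) :
    PD (fun x y => inner ℝ (F x) (F y)) := by
  intro T c
  refine (real_inner_self_nonneg (x := ∑ x ∈ T, c x • F x)).trans_eq ?_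
  simp only [sum_inner, inner_sum, real_inner_smul_left, real_inner_smul_right]
  rw [Finset.sum_comm]
  refine Finset.sum_congr rfl fun x _ => Finset.sum_congr rfl fun y _ => ?_
  ring

theorem PD_one {X : Type} : PD (fun _ _ : X => (1 : ℝ)) := by
  intro T c
  simp only [mul_one]
  rw [← Finset.sum_mul_sum]
  exact mul_self_nonneg _

theorem PD_pow (d : ℕ) : ∀ n : ℕ, PD (fun x y : S d => (inner ℝ (x : E d) (y : E d)) ^ n)
  | 0 => by simpa using PD_one
  | n + 1 => by
    have h := PD.sum (Finset.univ : Finset (Fin (d + 1)))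
      (k := fun l (x y : S d) => (x : E d) l * (y : E d) l * (inner ℝ (x : E d) (y : E d)) ^ n)
      (fun l _ => (PD_pow d n).feature fun x => (x : E d) l)
    convert h using 3 with x y
    rw [← Finset.sum_mul, pow_succ, mul_comm]
    congr 1
    simp [PiLp.inner_apply, mul_comm]

theorem PD_exp (d : ℕ) {t : ℝ} (ht : 0 ≤ t) :
    PD (fun x y : S d => Real.exp (t * inner ℝ (x : E d) (y : E d))) := by
  intro T c
  have h : HasSum (fun n : ℕ => ∑ x ∈ T, ∑ y ∈ T,
      c x * c y * ((t * inner ℝ (x : E d) (y : E d)) ^ n / n.factorial))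
      (∑ x ∈ T, ∑ y ∈ T, c x * c y * Real.exp (t * inner ℝ (x : E d) (y : E d))) := by
    refine hasSum_sum fun x _ => hasSum_sum fun y _ => HasSum.mul_left _ ?_
    rw [Real.exp_eq_exp_ℝ]
    exact NormedSpace.expSeries_div_hasSum_exp _
  refine h.nonneg fun n => ?_
  have h2 := (PD_pow d n).smul (a := t ^ n / n.factorial) (by positivity) T c
  refine h2.trans_eq ?_
  refine Finset.sum_congr rfl fun x _ => Finset.sum_congr rfl fun y _ => ?_
  rw [mul_pow]
  ring

theorem dist_sq {d : ℕ} (x y : S d) : dist x y ^ 2 = 2 - 2 * inner ℝ (x : E d) (y : E d) := by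
  rw [Subtype.dist_eq, dist_eq_norm, norm_sub_sq_real]
  have hx : ‖(x : E d)‖ = 1 := by simp
  have hy : ‖(y : E d)‖ = 1 := by simp
  rw [hx, hy]
  ring

theorem PD_gauss (d : ℕ) {a : ℝ} (ha : 0 ≤ a) :
    PD (fun x y : S d => Real.exp (-(a * dist x y ^ 2))) := by
  have h := (PD_exp d (t := 2 * a) (by positivity)).smul (Real.exp_pos (-(2 * a))).le
  convert h using 3 with x y
  rw [← Real.exp_add, dist_sq]
  congr 1
  ring

theorem exists_emb {X : Type} [TopologicalSpace X] (k : X → X → ℝ) (hs : ∀ x y, k x y = k y x)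
    (hc : Continuous fun p : X × X => k p.1 p.2) (hp : PD k) :
    ∃ (H : Type) (_ : NormedAddCommGroup H) (_ : InnerProductSpace ℝ H) (_ : CompleteSpace H)
      (Φ : X → H), Continuous Φ ∧ ∀ x y, inner ℝ (Φ x) (Φ y) = k x y := by
  let core : PreInnerProductSpace.Core ℝ (X →₀ ℝ) :=
    { inner := fun f g => f.sum fun x a => g.sum fun y b => a * b * k x y
      conj_inner_symm := fun f g => by
        simp only [conj_trivial]
        rw [Finsupp.sum_comm]
        refine Finset.sum_congr rfl fun x _ => Finset.sum_congr rfl fun y _ => ?_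
        simp only
        rw [hs y x]
        ring
      add_left := fun _ _ _ => by
        rw [Finsupp.sum_add_index'] <;> simp [← Finsupp.sum_add, add_mul]
      smul_left := fun _ _ _ => by
        rw [Finsupp.sum_smul_index] <;> simp [Finsupp.mul_sum, ← mul_assoc]
      re_inner_nonneg := fun f => hp f.support f }
  let _ : SeminormedAddCommGroup (X →₀ ℝ) :=
    InnerProductSpace.Core.toSeminormedAddCommGroup (𝕜 := ℝ) (c := core)
  let _ : InnerProductSpace ℝ (X →₀ ℝ) := InnerProductSpace.ofCore core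
  let Φ : X → UniformSpace.Completion (X →₀ ℝ) := fun x =>
    ((Finsupp.single x (1 : ℝ) : X →₀ ℝ) : UniformSpace.Completion (X →₀ ℝ))
  have hΦ : ∀ x y, inner ℝ (Φ x) (Φ y) = k x y := by
    intro x y
    simp only [Φ]
    rw [UniformSpace.Completion.inner_coe]
    show (Finsupp.single x (1 : ℝ)).sum
      (fun x a => (Finsupp.single y (1 : ℝ)).sum fun y b => a * b * k x y) = k x y
    simp
  refine ⟨UniformSpace.Completion (X →₀ ℝ), inferInstance, inferInstance, inferInstance, Φ, ?_, hΦ⟩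
  refine continuous_iff_continuousAt.2 fun x => ?_
  rw [ContinuousAt, tendsto_iff_norm_sub_tendsto_zero]
  have e : (fun y => ‖Φ y - Φ x‖) = fun y => Real.sqrt (k y y - 2 * k y x + k x x) := by
    funext y
    rw [← hΦ, ← hΦ, ← hΦ, real_inner_self_eq_norm_sq, real_inner_self_eq_norm_sq,
      ← norm_sub_sq_real, Real.sqrt_sq (norm_nonneg _)]
  have c1 : Continuous fun y => k y y := hc.comp (continuous_id.prodMk continuous_id)
  have c2 : Continuous fun y => k y x := hc.comp (continuous_id.prodMk continuous_const)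
  have c3 : Continuous fun y => Real.sqrt (k y y - 2 * k y x + k x x) :=
    ((c1.sub (continuous_const.mul c2)).add continuous_const).sqrt
  rw [e]
  have := c3.tendsto x
  have e0 : k x x - 2 * k x x + k x x = 0 := by ring
  simpa [e0] using this

theorem mel_integrable {β : ℝ} (h0 : 0 < β) (h1 : β < 1) :
    IntegrableOn (fun v : ℝ => (1 - Real.exp (-v)) * v ^ (-1 - β)) (Ioi 0) := by
  have hm : Measurable (fun v : ℝ => (1 - Real.exp (-v)) * v ^ (-1 - β)) := by fun_prop
  have hnn : ∀ v : ℝ, 0 < v → 0 ≤ 1 - Real.exp (-v) := fun v hv => by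
    have := Real.exp_le_one_iff.2 (show -v ≤ 0 by linarith)
    linarith
  rw [← Ioc_union_Ioi_eq_Ioi (zero_le_one' ℝ)]
  refine IntegrableOn.union ?_ ?_
  · have hi : IntegrableOn (fun v : ℝ => v ^ (-β)) (Ioc 0 1) :=
      (intervalIntegral.intervalIntegrable_rpow' (a := 0) (b := 1) (by linarith)).1
    refine Integrable.mono' hi hm.aestronglyMeasurable ?_
    refine (ae_restrict_iff' measurableSet_Ioc).2 (Eventually.of_forall fun v hv => ?_)
    have hv0 := hv.1
    have hp : 0 ≤ v ^ (-1 - β) := Real.rpow_nonneg hv0.le _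
    rw [Real.norm_of_nonneg (mul_nonneg (hnn v hv0) hp)]
    have h2 : 1 - Real.exp (-v) ≤ v := by linarith [Real.add_one_le_exp (-v)]
    have h3 : v ^ (-β) = v * v ^ (-1 - β) := by
      rw [← Real.rpow_one_add' hv0.le (by linarith)]
      congr 1
      ring
    rw [h3]
    exact mul_le_mul_of_nonneg_right h2 hp
  · have hi : IntegrableOn (fun v : ℝ => v ^ (-1 - β)) (Ioi 1) :=
      integrableOn_Ioi_rpow_of_lt (by linarith) one_pos
    refine Integrable.mono' hi hm.aestronglyMeasurable ?_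
    refine (ae_restrict_iff' measurableSet_Ioi).2 (Eventually.of_forall fun v hv => ?_)
    have hv0 : 0 < v := lt_trans one_pos hv
    have hp : 0 ≤ v ^ (-1 - β) := Real.rpow_nonneg hv0.le _
    rw [Real.norm_of_nonneg (mul_nonneg (hnn v hv0) hp)]
    exact mul_le_of_le_one_left hp (by linarith [Real.exp_pos (-v)])

theorem mel_pos {β : ℝ} (h0 : 0 < β) (h1 : β < 1) :
    0 < ∫ v in Ioi (0 : ℝ), (1 - Real.exp (-v)) * v ^ (-1 - β) := by
  have hpos : ∀ v : ℝ, 0 < v → 0 < (1 - Real.exp (-v)) * v ^ (-1 - β) := fun v hv => by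
    have := Real.exp_lt_one_iff.2 (show -v < 0 by linarith)
    exact mul_pos (by linarith) (Real.rpow_pos_of_pos hv _)
  rw [setIntegral_pos_iff_support_of_nonneg_ae _ (mel_integrable h0 h1)]
  · have : Ioi (0 : ℝ) ⊆ Function.support (fun v : ℝ => (1 - Real.exp (-v)) * v ^ (-1 - β)) ∩
        Ioi 0 := fun v hv => ⟨(hpos v hv).ne', hv⟩
    refine lt_of_lt_of_le ?_ (measure_mono this)
    simp
  · exact (ae_restrict_iff' measurableSet_Ioi).2 (Eventually.of_forall fun v hv => (hpos v hv).le)

end Emb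

open Emb

theorem stMel (α : ℝ) (h0 : 0 < α) (h2 : α < 2) : StMel α := by
  have hb0 : 0 < α / 2 := by linarith
  have hb1 : α / 2 < 1 := by linarith
  have hI := mel_pos hb0 hb1
  refine ⟨inv_pos.2 hI, fun r hr => ?_⟩
  rcases hr.eq_or_lt with rfl | hr
  · simp [Real.zero_rpow h0.ne']
  · have ht : 0 < r ^ 2 := by positivity
    have hcong : EqOn (fun v : ℝ => (r ^ 2) ^ (1 + α / 2) *
        ((1 - Real.exp (-(r ^ 2 * v))) * (r ^ 2 * v) ^ (-1 - α / 2)))
        (fun v : ℝ => (1 - Real.exp (-(v * r ^ 2))) * v ^ (-1 - α / 2)) (Ioi 0) := by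
      intro v hv
      have hv0 : (0 : ℝ) < v := hv
      have e : (r ^ 2) ^ (1 + α / 2) * (r ^ 2) ^ (-1 - α / 2) = 1 := by
        rw [← Real.rpow_add ht]
        have : 1 + α / 2 + (-1 - α / 2) = 0 := by ring
        rw [this, Real.rpow_zero]
      simp only
      rw [Real.mul_rpow ht.le hv0.le, mul_comm v]
      linear_combination ((1 - Real.exp (-(r ^ 2 * v))) * v ^ (-1 - α / 2)) * e
    have hint : IntegrableOn (fun v : ℝ =>
        (1 - Real.exp (-(r ^ 2 * v))) * (r ^ 2 * v) ^ (-1 - α / 2)) (Ioi 0) := by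
      refine (integrableOn_Ioi_comp_mul_left_iff
        (fun v : ℝ => (1 - Real.exp (-v)) * v ^ (-1 - α / 2)) 0 ht).2 ?_
      rw [mul_zero]
      exact mel_integrable hb0 hb1
    refine ⟨IntegrableOn.congr_fun (hint.const_mul _) hcong measurableSet_Ioi, ?_⟩
    rw [← setIntegral_congr_fun measurableSet_Ioi hcong, integral_const_mul,
      integral_comp_mul_left_Ioi (fun v : ℝ => (1 - Real.exp (-v)) * v ^ (-1 - α / 2)) 0 ht,
      mul_zero, smul_eq_mul, cA]
    have e : (r ^ 2) ^ (1 + α / 2) = r ^ 2 * r ^ α := by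
      rw [Real.rpow_add ht, Real.rpow_one, ← Real.rpow_natCast, ← Real.rpow_mul hr.le]
      congr 2
      push_cast
      ring
    rw [e]
    generalize (∫ v in Ioi (0 : ℝ), (1 - Real.exp (-v)) * v ^ (-1 - α / 2)) = I at hI ⊢
    field_simp

theorem stGau (d : ℕ) : StGau d := by
  intro a ha
  exact exists_emb (fun x y : S d => Real.exp (-(a * dist x y ^ 2)))
    (fun x y => by rw [dist_comm]) (by fun_prop) (PD_gauss d ha)

theorem stEmb (d : ℕ) (hd : 2 ≤ d) (α : ℝ) (h0 : 0 < α) (h2 : α < 2) : StEmb d α := by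
  obtain ⟨hc, hM⟩ := stMel α h0 h2
  let o : S d := nrm 0
  let w : ℝ → ℝ → ℝ := fun r v => (1 - Real.exp (-(v * r ^ 2))) * v ^ (-1 - α / 2)
  have hp : PD (fun x y : S d => dist x o ^ α + dist y o ^ α - dist x y ^ α) := by
    intro T c
    have hi : ∀ x y : S d, IntegrableOn (fun v => c x * c y *
        (w (dist x o) v + w (dist y o) v - w (dist x y) v)) (Ioi 0) := fun x y =>
      (((hM _ dist_nonneg).1.add (hM _ dist_nonneg).1).sub (hM _ dist_nonneg).1).const_mul _
    have e : ∀ x y : S d, c x * c y * (dist x o ^ α + dist y o ^ α - dist x y ^ α) =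
        cA α * ∫ v in Ioi (0 : ℝ), c x * c y *
          (w (dist x o) v + w (dist y o) v - w (dist x y) v) := by
      intro x y
      have i1 : IntegrableOn (w (dist x o)) (Ioi 0) := (hM _ dist_nonneg).1
      have i2 : IntegrableOn (w (dist y o)) (Ioi 0) := (hM _ dist_nonneg).1
      have i3 : IntegrableOn (w (dist x y)) (Ioi 0) := (hM _ dist_nonneg).1
      have i4 : IntegrableOn (fun v => w (dist x o) v + w (dist y o) v) (Ioi 0) := i1.add i2
      have e1 : dist x o ^ α = cA α * ∫ v in Ioi (0 : ℝ), w (dist x o) v := (hM _ dist_nonneg).2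
      have e2 : dist y o ^ α = cA α * ∫ v in Ioi (0 : ℝ), w (dist y o) v := (hM _ dist_nonneg).2
      have e3 : dist x y ^ α = cA α * ∫ v in Ioi (0 : ℝ), w (dist x y) v := (hM _ dist_nonneg).2
      rw [integral_const_mul, integral_sub i4 i3, integral_add i1 i2, e1, e2, e3]
      ring
    simp only [e, ← Finset.mul_sum]
    refine mul_nonneg hc.le ?_
    have e2 : ∑ x ∈ T, ∑ y ∈ T, ∫ v in Ioi (0 : ℝ), c x * c y *
          (w (dist x o) v + w (dist y o) v - w (dist x y) v) =
        ∫ v in Ioi (0 : ℝ), ∑ x ∈ T, ∑ y ∈ T, c x * c y *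
          (w (dist x o) v + w (dist y o) v - w (dist x y) v) := by
      rw [integral_finsetSum _ fun x _ => integrable_finsetSum _ fun y _ => hi x y]
      exact Finset.sum_congr rfl fun x _ => (integral_finsetSum _ fun y _ => hi x y).symm
    rw [e2]
    refine setIntegral_nonneg measurableSet_Ioi fun v hv => ?_
    have hv0 : (0 : ℝ) < v := hv
    obtain ⟨H, _, _, _, Γ, _, hΓ⟩ := stGau d v hv0.le
    have h := (PD_inner fun x => Γ x - Γ o).smul (Real.rpow_nonneg hv0.le (-1 - α / 2)) T c
    refine h.trans_eq ?_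
    refine Finset.sum_congr rfl fun x _ => Finset.sum_congr rfl fun y _ => ?_
    simp only [inner_sub_left, inner_sub_right, hΓ, w, dist_self, dist_comm o]
    simp only [ne_eq, OfNat.ofNat_ne_zero, not_false_eq_true, zero_pow, mul_zero, neg_zero,
      Real.exp_zero]
    ring
  have hcont : Continuous fun p : S d × S d =>
      dist p.1 o ^ α + dist p.2 o ^ α - dist p.1 p.2 ^ α := by
    refine Continuous.sub (Continuous.add ?_ ?_) ?_ <;>
      exact Continuous.rpow_const (by fun_prop) fun _ => Or.inr h0.le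
  obtain ⟨H, i1, i2, i3, Φ, h1, h2⟩ := exists_emb _
    (fun x y => by rw [dist_comm x y]; ring) hcont hp
  refine ⟨H, i1, i2, i3, Φ, h1, fun x y => ?_⟩
  rw [norm_sub_sq_real, ← real_inner_self_eq_norm_sq, ← real_inner_self_eq_norm_sq, h2, h2, h2]
  simp only [dist_self, Real.zero_rpow h0.ne']
  ring

end Pool.Agent.H734Z.RS
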