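import Pool.Agent.H734Z.RS.Defs
import Pool.Agent.Helper88.SE.P_hyp1

set_option autoImplicit false

open MeasureTheory Set Filter Topology
open scoped ENNReal
open Pool.Agent.Helper88.SE

namespace Pool.Agent.H734Z.RS

namespace Hyp0

/-- The uniform law on `[-2,2]`. -/
noncomputable def U : Measure ℝ := (4⁻¹ : ℝ≥0∞) • (volume : Measure ℝ).restrict (Icc (-2) 2)

theorem U_prob : IsProbabilityMeasure U := by
  constructor
  rw [U, Measure.smul_apply, Measure.restrict_apply MeasurableSet.univ, Set.univ_inter,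
    Real.volume_Icc, smul_eq_mul]
  have h2 : ENNReal.ofReal (2 - (-2)) = 4 := by norm_num
  rw [h2]
  exact ENNReal.inv_mul_cancel (by norm_num) (by norm_num)

/-- Good thresholds. -/
def T (m a b : ℝ) : Set ℝ := {t | m < |a - t| ∧ m < |b - t| ∧ decide (a ≤ t) = decide (b ≤ t)}

theorem T_comm (m a b : ℝ) : T m a b = T m b a := by
  ext t
  simp only [T, mem_setOf_eq]
  constructor
  · rintro ⟨h1, h2, h3⟩
    exact ⟨h2, h1, h3.symm⟩
  · rintro ⟨h1, h2, h3⟩
    exact ⟨h2, h1, h3.symm⟩

theorem T_eq (m a b : ℝ) (hm : 0 ≤ m) (hab : a ≤ b) : T m a b = (Icc (a - m) (b + m))ᶜ := by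
  ext t
  simp only [T, mem_setOf_eq, mem_compl_iff, mem_Icc, not_and_or, not_le, decide_eq_decide]
  constructor
  · rintro ⟨h1, h2, h3⟩
    by_cases h : a ≤ t
    · have hb : b ≤ t := h3.mp h
      right
      rw [abs_of_nonpos (by linarith)] at h2
      linarith
    · left
      rw [not_le] at h
      rw [abs_of_pos (by linarith)] at h1
      linarith
  · rintro (h | h)
    · refine ⟨?_, ?_, ?_⟩
      · rw [abs_of_pos (by linarith)]; linarith
      · rw [abs_of_pos (by linarith)]; linarith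
      · constructor <;> intro h' <;> linarith
    · refine ⟨?_, ?_, ?_⟩
      · rw [abs_of_neg (by linarith)]; linarith
      · rw [abs_of_neg (by linarith)]; linarith
      · constructor <;> intro h' <;> linarith

theorem U_T_aux (m a b : ℝ) (hm : 0 ≤ m) (hm1 : m ≤ 1) (ha : a ∈ Icc (-1 : ℝ) 1)
    (hb : b ∈ Icc (-1 : ℝ) 1) (hab : a ≤ b) :
    U (T m a b) = ENNReal.ofReal (1 - |a - b| / 4 - m / 2) := by
  rw [T_eq m a b hm hab, U, Measure.smul_apply, Measure.restrict_apply measurableSet_Icc.compl]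
  have h2 : (Icc (a - m) (b + m))ᶜ ∩ Icc (-2 : ℝ) 2 = Icc (-2 : ℝ) 2 \ Icc (a - m) (b + m) := by
    rw [Set.inter_comm]; rfl
  have h3 : Icc (a - m) (b + m) ⊆ Icc (-2 : ℝ) 2 := fun t ht =>
    ⟨by linarith [ha.1, ht.1], by linarith [hb.2, ht.2]⟩
  rw [h2, measure_diff h3 measurableSet_Icc.nullMeasurableSet (by simp), Real.volume_Icc,
    Real.volume_Icc, ← ENNReal.ofReal_sub _ (by linarith), smul_eq_mul]
  have h4 : (4⁻¹ : ℝ≥0∞) = ENNReal.ofReal (4⁻¹ : ℝ) := by
    rw [ENNReal.ofReal_inv_of_pos (by norm_num)]; simp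
  rw [h4, ← ENNReal.ofReal_mul (by norm_num), abs_of_nonpos (sub_nonpos.mpr hab)]
  congr 1
  ring

theorem U_T (m a b : ℝ) (hm : 0 ≤ m) (hm1 : m ≤ 1) (ha : a ∈ Icc (-1 : ℝ) 1)
    (hb : b ∈ Icc (-1 : ℝ) 1) :
    U (T m a b) = ENNReal.ofReal (1 - |a - b| / 4 - m / 2) := by
  rcases le_total a b with hab | hab
  · exact U_T_aux m a b hm hm1 ha hb hab
  · rw [T_comm, abs_sub_comm a b]
    exact U_T_aux m b a hm hm1 hb ha hab

theorem hb1 {d : ℕ} (w : E d) (n : S d) : |inner ℝ (n : E d) w| ≤ ‖w‖ := by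
  have h := abs_real_inner_le_norm (n : E d) w
  have h2 : ‖(n : E d)‖ = 1 := by simpa using n.2
  rw [h2, one_mul] at h
  exact h

theorem hmem {d : ℕ} (n w : S d) : inner ℝ (n : E d) (w : E d) ∈ Icc (-1 : ℝ) 1 := by
  have h := hb1 (w : E d) n
  have h2 : ‖(w : E d)‖ = 1 := by simpa using w.2
  rw [h2] at h
  exact abs_le.mp h

theorem dist_le_two {d : ℕ} (u v : S d) : dist u v ≤ 2 := by
  have h3 : dist (u : E d) (v : E d) ≤ dist (u : E d) 0 + dist 0 (v : E d) :=
    dist_triangle _ _ _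
  have h4 : dist (u : E d) 0 = 1 := u.2
  have h5 : dist (0 : E d) (v : E d) = 1 := by rw [dist_comm]; exact v.2
  rw [h4, h5] at h3
  calc dist u v = dist (u : E d) (v : E d) := rfl
    _ ≤ 1 + 1 := h3
    _ = 2 := by norm_num

/-- The good event for one hyperplane. -/
def G {d : ℕ} (m : ℝ) (u v : S d) : Set (S d × ℝ) :=
  {p | p.2 ∈ T m (inner ℝ (p.1 : E d) (u : E d)) (inner ℝ (p.1 : E d) (v : E d))}

theorem meas_dec {X : Type} [MeasurableSpace X] (f g : X → ℝ) (hf : Measurable f)
    (hg : Measurable g) : Measurable fun p => decide (f p ≤ g p) := by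
  refine measurable_to_bool ?_
  have h3 := measurableSet_le hf hg
  convert h3 using 1
  ext p
  simp

theorem G_meas {d : ℕ} (m : ℝ) (u v : S d) : MeasurableSet (G m u v) := by
  have h1 : ∀ w : S d, Measurable fun p : S d × ℝ => inner ℝ (p.1 : E d) (w : E d) := fun w =>
    (measurable_subtype_coe.comp measurable_fst).inner measurable_const
  have h2 : ∀ w : S d, MeasurableSet
      {p : S d × ℝ | m < |inner ℝ (p.1 : E d) (w : E d) - p.2|} := fun w =>
    measurableSet_lt measurable_const ((h1 w).sub measurable_snd).abs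
  have h3 := measurableSet_eq_fun (meas_dec _ _ (h1 u) measurable_snd)
    (meas_dec _ _ (h1 v) measurable_snd)
  exact (h2 u).inter ((h2 v).inter h3)

theorem one (d : ℕ) : ∃ κ : ℝ, 0 < κ ∧ κ ≤ 1 / 4 ∧ ∀ m : ℝ, 0 ≤ m → m ≤ 1 → ∀ u v : S d,
    ((sg d).prod U) (G m u v) = ENNReal.ofReal (1 - κ * dist u v - m / 2) := by
  have := sg_prob d
  have := sg_open d
  have := U_prob
  let e0 : E d := EuclideanSpace.single 0 1
  have he0 : ‖e0‖ = 1 := by simp [e0]
  let eS : S d := ⟨e0, by simp [he0]⟩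
  have hint : ∀ w : E d, Integrable (fun n : S d => |inner ℝ (n : E d) w|) (sg d) := by
    intro w
    refine Integrable.of_bound (hyp1_cont d w).aestronglyMeasurable ‖w‖
      (Filter.Eventually.of_forall fun n => ?_)
    rw [Real.norm_eq_abs, abs_abs]
    exact hb1 w n
  set c : ℝ := ∫ n : S d, |inner ℝ (n : E d) e0| ∂(sg d) with hc
  have hc1 : c ≤ 1 := by
    have h := integral_mono (hint e0) (integrable_const (1 : ℝ))
      (fun n => (hb1 e0 n).trans he0.le)
    simpa using h
  have hc0 : 0 < c := by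
    rw [hc, integral_pos_iff_support_of_nonneg (fun n => abs_nonneg _) (hint e0)]
    have ho : IsOpen (Function.support fun n : S d => |inner ℝ (n : E d) e0|) :=
      (hyp1_cont d e0).isOpen_support
    refine ho.measure_pos (sg d) ⟨eS, ?_⟩
    show |inner ℝ e0 e0| ≠ 0
    rw [real_inner_self_eq_norm_sq, he0]; norm_num
  refine ⟨c / 4, by positivity, by linarith, fun m hm hm1 u v => ?_⟩
  rw [Measure.prod_apply (G_meas m u v)]
  have h1 : ∀ n : S d, U (Prod.mk n ⁻¹' G m u v) =
      ENNReal.ofReal (1 - |inner ℝ (n : E d) ((u : E d) - v)| / 4 - m / 2) := by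
    intro n
    rw [inner_sub_right, ← U_T m _ _ hm hm1 (hmem n u) (hmem n v)]
    rfl
  simp only [h1]
  have hi0 : Integrable (fun n : S d => 1 - |inner ℝ (n : E d) ((u : E d) - v)| / 4) (sg d) :=
    (integrable_const 1).sub ((hint _).div_const 4)
  have hi : Integrable
      (fun n : S d => 1 - |inner ℝ (n : E d) ((u : E d) - v)| / 4 - m / 2) (sg d) :=
    hi0.sub (integrable_const _)
  rw [← ofReal_integral_eq_lintegral_ofReal hi, integral_sub hi0 (integrable_const _),
    integral_sub (integrable_const 1) ((hint _).div_const 4), integral_div, hyp1_rot d e0 _ he0]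
  · congr 1
    rw [← hc, ← dist_eq_norm, Subtype.dist_eq]
    simp
    ring
  · refine Filter.Eventually.of_forall fun n => ?_
    show (0 : ℝ) ≤ 1 - |inner ℝ (n : E d) ((u : E d) - v)| / 4 - m / 2
    have h2 := hmem n u
    have h3 := hmem n v
    rw [inner_sub_right]
    have h4 : |inner ℝ (n : E d) (u : E d) - inner ℝ (n : E d) (v : E d)| ≤ 2 := by
      rw [abs_le]
      constructor <;> linarith [h2.1, h2.2, h3.1, h3.2]
    linarith

open Classical in
/-- The labelling by `k` hyperplanes. -/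
noncomputable def A {d k : ℕ} (m : ℝ) (w : Fin k → S d × ℝ) (u : S d) :
    Option (Fin k → Bool) :=
  if ∀ i, m < |inner ℝ ((w i).1 : E d) (u : E d) - (w i).2| then
    some (fun i => decide (inner ℝ ((w i).1 : E d) (u : E d) ≤ (w i).2)) else none

theorem A_iff {d k : ℕ} (m : ℝ) (w : Fin k → S d × ℝ) (u : S d) (b : Fin k → Bool) :
    A m w u = some b ↔ ∀ i, m < |inner ℝ ((w i).1 : E d) (u : E d) - (w i).2| ∧
      decide (inner ℝ ((w i).1 : E d) (u : E d) ≤ (w i).2) = b i := by
  unfold A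
  split_ifs with h
  · rw [Option.some.injEq, funext_iff]
    exact ⟨fun h' i => ⟨h i, h' i⟩, fun h' i => (h' i).2⟩
  · constructor
    · intro h'
      exact absurd h' (by simp)
    · intro h'
      exact absurd (fun i => (h' i).1) h

end Hyp0

open Hyp0 in
theorem stHyp (d : ℕ) : StHyp d := by
  obtain ⟨κ, hκ0, hκ1, hone⟩ := one d
  have := sg_prob d
  have := U_prob
  refine ⟨κ, hκ0, hκ1, fun k m hm hm1 => ⟨Fin k → S d × ℝ, inferInstance,
    Measure.pi (fun _ => (sg d).prod U), A m, inferInstance, fun b => ?_, fun u v => ?_, ?_⟩⟩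
  · have h0 : {p : (Fin k → S d × ℝ) × S d | A m p.1 p.2 = some b} =
        ⋂ i, ({p : (Fin k → S d × ℝ) × S d |
          m < |inner ℝ ((p.1 i).1 : E d) (p.2 : E d) - (p.1 i).2|} ∩
          {p | decide (inner ℝ ((p.1 i).1 : E d) (p.2 : E d) ≤ (p.1 i).2) = b i}) := by
      ext p
      simp only [mem_setOf_eq, mem_iInter, mem_inter_iff, A_iff]
    rw [h0]
    refine MeasurableSet.iInter fun i => ?_
    have h1 : Measurable fun p : (Fin k → S d × ℝ) × S d => p.1 i :=
      (measurable_pi_apply i).comp measurable_fst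
    have h2 : Measurable fun p : (Fin k → S d × ℝ) × S d =>
        inner ℝ ((p.1 i).1 : E d) (p.2 : E d) :=
      (measurable_subtype_coe.comp (measurable_fst.comp h1)).inner
        (measurable_subtype_coe.comp measurable_snd)
    have h3 : Measurable fun p : (Fin k → S d × ℝ) × S d => (p.1 i).2 := measurable_snd.comp h1
    exact (measurableSet_lt measurable_const (h2.sub h3).abs).inter
      (measurableSet_eq_fun (meas_dec _ _ h2 h3) measurable_const)
  · have hpi : {w : Fin k → S d × ℝ | ∃ b, A m w u = some b ∧ A m w v = some b} =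
        Set.pi Set.univ (fun _ : Fin k => G m u v) := by
      ext w
      simp only [mem_setOf_eq, Set.mem_pi, Set.mem_univ, true_implies, A_iff, G, T]
      constructor
      · rintro ⟨b, h1, h2⟩ i
        exact ⟨(h1 i).1, (h2 i).1, (h1 i).2.trans (h2 i).2.symm⟩
      · intro h
        exact ⟨fun i => decide (inner ℝ ((w i).1 : E d) (u : E d) ≤ (w i).2),
          fun i => ⟨(h i).1, rfl⟩, fun i => ⟨(h i).2.1, (h i).2.2.symm⟩⟩
    rw [hpi, Measure.pi_pi, Finset.prod_const, Finset.card_univ, Fintype.card_fin,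
      hone m hm hm1 u v, ENNReal.ofReal_pow]
    have hd := dist_le_two u v
    nlinarith
  · intro w u v b b' hu hv hne
    rw [A_iff] at hu hv
    obtain ⟨i, hi⟩ := Function.ne_iff.mp hne
    obtain ⟨h1, h2⟩ := hu i
    obtain ⟨h3, h4⟩ := hv i
    have h5 := hb1 ((u : E d) - (v : E d)) (w i).1
    rw [inner_sub_right, ← dist_eq_norm, ← Subtype.dist_eq, abs_le] at h5
    rw [← h2, ← h4] at hi
    by_cases h6 : inner ℝ ((w i).1 : E d) (u : E d) ≤ (w i).2
    · have h7 : ¬ inner ℝ ((w i).1 : E d) (v : E d) ≤ (w i).2 := fun h => hi (by simp [h, h6])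
      rw [not_le] at h7
      rw [abs_of_nonpos (by linarith)] at h1
      rw [abs_of_pos (by linarith)] at h3
      linarith [h5.1]
    · have h7 : inner ℝ ((w i).1 : E d) (v : E d) ≤ (w i).2 := by
        by_contra h
        exact hi (by simp [h, h6])
      rw [not_le] at h6
      rw [abs_of_pos (by linarith)] at h1
      rw [abs_of_nonpos (by linarith)] at h3
      linarith [h5.2]

end Pool.Agent.H734Z.RS
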