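import Pool.Agent.H734Z.RS.Defs
import Pool.Agent.Helper88.SE.P_exists_haar
import Pool.Agent.Helper88.SE.P_Em_basic

set_option autoImplicit false

open MeasureTheory Set Filter Topology
open scoped ENNReal
open Pool.Agent.Helper88.SE

namespace Pool.Agent.H734Z.RS

namespace Low

theorem Ecube_nonneg (d : ℕ) (s : ℝ) (N : ℕ) : 0 ≤ Ecube d s N :=
  Real.iInf_nonneg fun _ => Finset.sum_nonneg fun _ _ => Finset.sum_nonneg fun _ _ =>
    Real.rpow_nonneg (Real.sqrt_nonneg _) _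

theorem cube_bound (d : ℕ) (s C : ℝ) (hp : 0 ≤ 1 + s / (d : ℝ)) (h2 : StCube d s C) (t : ℝ)
    (ht : 0 < t) (htC : t ≤ C) :
    ∃ B : ℝ, 0 ≤ B ∧ ∀ n : ℕ, (C - t) * (n : ℝ) ^ (1 + s / (d : ℝ)) - B ≤ Ecube d s n := by
  have h := h2.eventually (lt_mem_nhds (show C - t < C by linarith))
  obtain ⟨N₀, hN₀⟩ := eventually_atTop.1 h
  have hCt : 0 ≤ C - t := by linarith
  have hB : 0 ≤ (C - t) * ((N₀ + 1 : ℕ) : ℝ) ^ (1 + s / (d : ℝ)) := by positivity
  refine ⟨(C - t) * ((N₀ + 1 : ℕ) : ℝ) ^ (1 + s / (d : ℝ)), hB, fun n => ?_⟩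
  by_cases hn : N₀ + 1 ≤ n
  · have h1 := hN₀ n (by omega)
    have hn0 : (0 : ℝ) < n := by exact_mod_cast (by omega : 0 < n)
    have h3 : (n : ℝ) ^ (1 + s / (d : ℝ)) * (n : ℝ) ^ (-1 - s / (d : ℝ)) = 1 := by
      rw [← Real.rpow_add hn0]
      have : 1 + s / (d : ℝ) + (-1 - s / (d : ℝ)) = 0 := by ring
      rw [this, Real.rpow_zero]
    have h4 : 0 < (n : ℝ) ^ (1 + s / (d : ℝ)) := Real.rpow_pos_of_pos hn0 _
    have h5 : (n : ℝ) ^ (1 + s / (d : ℝ)) * (C - t) ≤
        (n : ℝ) ^ (1 + s / (d : ℝ)) * ((n : ℝ) ^ (-1 - s / (d : ℝ)) * Ecube d s n) :=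
      mul_le_mul_of_nonneg_left h1.le h4.le
    rw [← mul_assoc, h3, one_mul] at h5
    linarith
  · have h1 : (n : ℝ) ≤ ((N₀ + 1 : ℕ) : ℝ) := by exact_mod_cast (by omega : n ≤ N₀ + 1)
    have h3 : (n : ℝ) ^ (1 + s / (d : ℝ)) ≤ ((N₀ + 1 : ℕ) : ℝ) ^ (1 + s / (d : ℝ)) :=
      Real.rpow_le_rpow (Nat.cast_nonneg _) h1 hp
    have h4 := mul_le_mul_of_nonneg_left h3 hCt
    have h5 := Ecube_nonneg d s n
    linarith

theorem Ecube_le {d N : ℕ} (s : ℝ) (T : Finset (Fin N)) (y : Fin N → Fin d → ℝ)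
    (hy : ∀ i ∈ T, ∀ j ∈ T, y i = y j → i = j) (hc : ∀ i ∈ T, y i ∈ cube d) :
    Ecube d s T.card ≤ ∑ i ∈ T, ∑ j ∈ T.erase i, ed (y i) (y j) ^ (-s) := by
  classical
  let e : Fin T.card ≃ T := T.equivFin.symm
  have hinj : Function.Injective (fun k : Fin T.card => y (e k)) := by
    intro k l hkl
    have := hy _ (e k).2 _ (e l).2 hkl
    exact e.injective (Subtype.ext this)
  have hbdd : BddBelow (Set.range fun x : {x : Fin T.card → Fin d → ℝ //
      Function.Injective x ∧ ∀ i k, 0 ≤ x i k ∧ x i k ≤ 1} =>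
      ∑ i : Fin T.card, ∑ j ∈ Finset.univ.erase i,
        (Real.sqrt (∑ k : Fin d, (x.1 i k - x.1 j k) ^ 2)) ^ (-s)) := by
    refine ⟨0, ?_⟩
    rintro _ ⟨x, rfl⟩
    exact Finset.sum_nonneg fun _ _ => Finset.sum_nonneg fun _ _ =>
      Real.rpow_nonneg (Real.sqrt_nonneg _) _
  have h := ciInf_le hbdd ⟨fun k => y (e k), hinj, fun i k => hc _ (e i).2 k⟩
  refine le_trans h (le_of_eq ?_)
  refine Finset.sum_bij (fun k _ => ((e k : T) : Fin N)) (fun k _ => (e k).2) ?_ ?_ ?_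
  · intro k _ l _ hkl
    exact e.injective (Subtype.ext hkl)
  · intro i hi
    exact ⟨e.symm ⟨i, hi⟩, Finset.mem_univ _, by simp⟩
  · intro k _
    refine Finset.sum_bij (fun l _ => ((e l : T) : Fin N)) ?_ ?_ ?_ ?_
    · intro l hl
      refine Finset.mem_erase.2 ⟨?_, (e l).2⟩
      intro hkl
      exact (Finset.mem_erase.1 hl).1 (e.injective (Subtype.ext hkl))
    · intro l _ l' _ hll
      exact e.injective (Subtype.ext hll)
    · intro j hj
      obtain ⟨hjk, hjT⟩ := Finset.mem_erase.1 hj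
      refine ⟨e.symm ⟨j, hjT⟩, Finset.mem_erase.2 ⟨?_, Finset.mem_univ _⟩, by simp⟩
      intro hh
      apply hjk
      rw [← hh]
      simp
    · intro l _
      rfl

theorem pointwise {d N : ℕ} (s L : ℝ) (hs : 0 < s) (hL : 0 < L) (φ : (Fin d → ℝ) → S d)
    (hφ : ∀ u ∈ cube d, ∀ v ∈ cube d, dist (φ u) (φ v) ≤ L * ed u v)
    (z : Fin N → S d) (hz : Function.Injective z) (T : Finset (Fin N))
    (hT : ∀ i ∈ T, z i ∈ φ '' cube d) :
    L ^ (-s) * Ecube d s T.card ≤ ∑ i ∈ T, ∑ j, K s (z i) (z j) := by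
  classical
  have hex : ∀ i : Fin N, ∃ u : Fin d → ℝ, i ∈ T → u ∈ cube d ∧ φ u = z i := by
    intro i
    by_cases hi : i ∈ T
    · obtain ⟨u, hu, hu'⟩ := hT i hi
      exact ⟨u, fun _ => ⟨hu, hu'⟩⟩
    · exact ⟨fun _ => 0, fun h => absurd h hi⟩
  choose y hy using hex
  have h1 := Ecube_le s T y (fun i hi j hj hij => by
    apply hz
    rw [← (hy i hi).2, ← (hy j hj).2, hij]) (fun i hi => (hy i hi).1)
  have hLs : 0 ≤ L ^ (-s) := Real.rpow_nonneg hL.le _
  refine le_trans (mul_le_mul_of_nonneg_left h1 hLs) ?_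
  rw [Finset.mul_sum]
  refine Finset.sum_le_sum fun i hi => ?_
  rw [Finset.mul_sum]
  refine le_trans (Finset.sum_le_sum (g := fun j => K s (z i) (z j)) fun j hj => ?_) ?_
  · obtain ⟨hji, hjT⟩ := Finset.mem_erase.1 hj
    have hd : 0 < dist (z i) (z j) := dist_pos.2 fun h => hji (hz h).symm
    have hle : dist (z i) (z j) ≤ L * ed (y i) (y j) := by
      rw [← (hy i hi).2, ← (hy j hjT).2]
      exact hφ _ (hy i hi).1 _ (hy j hjT).1
    have hed : 0 ≤ ed (y i) (y j) := Real.sqrt_nonneg _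
    rw [← Real.mul_rpow hL.le hed]
    exact Real.rpow_le_rpow_of_nonpos hd hle (by linarith)
  · exact Finset.sum_le_sum_of_subset_of_nonneg (Finset.subset_univ _)
      fun _ _ _ => Real.rpow_nonneg dist_nonneg _

theorem tangent (p m n : ℝ) (hp : 1 ≤ p) (hm : 0 < m) (hn : 0 ≤ n) :
    m ^ p + p * m ^ p * (n / m - 1) ≤ n ^ p := by
  have h1 : -1 ≤ n / m - 1 := by
    have : 0 ≤ n / m := div_nonneg hn hm.le
    linarith
  have h2 := one_add_mul_self_le_rpow_one_add h1 hp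
  have h3 : 1 + (n / m - 1) = n / m := by ring
  rw [h3, Real.div_rpow hn hm.le] at h2
  have h4 : 0 < m ^ p := Real.rpow_pos_of_pos hm _
  rw [le_div_iff₀ h4] at h2
  nlinarith

theorem rot_dist {d : ℕ} (g : Iso d) (x y : S d) : dist (rot g x) (rot g y) = dist x y := by
  simp only [rot, Subtype.dist_eq]
  exact g.dist_map _ _

theorem average {d N : ℕ} (Q : Set (S d)) (hQ : MeasurableSet Q) (x : Fin N → S d)
    (w : Fin N → ℝ) (α β : ℝ)
    (h : ∀ (g : Iso d) (T : Finset (Fin N)), (∀ i, i ∈ T ↔ rot g (x i) ∈ Q) →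
      α * (T.card : ℝ) + β ≤ ∑ i ∈ T, w i) :
    α * ((N : ℝ) * (sg d Q).toReal) + β ≤ (sg d Q).toReal * ∑ i, w i := by
  classical
  obtain ⟨Ω, mΩ, P, G, hP, hm, hlaw⟩ := exists_haar d
  have hmi : ∀ i, Measurable (fun ω => rot (G ω) (x i)) := fun i =>
    hm.comp (measurable_id.prodMk measurable_const)
  let A : Fin N → Set Ω := fun i => (fun ω => rot (G ω) (x i)) ⁻¹' Q
  have hA : ∀ i, MeasurableSet (A i) := fun i => hmi i hQ
  have hPA : ∀ i, P (A i) = sg d Q := by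
    intro i
    have h1 := hlaw (x i) (Q.indicator 1) (measurable_one.indicator hQ)
    rw [lintegral_indicator_one hQ] at h1
    rw [← h1, ← lintegral_indicator_one (hA i)]
    rfl
  have hint : ∀ (i : Fin N) (c : ℝ), Integrable ((A i).indicator fun _ => c) P := fun i c =>
    (integrable_const c).indicator (hA i)
  have hval : ∀ (i : Fin N) (c : ℝ), ∫ ω, (A i).indicator (fun _ => c) ω ∂P =
      (sg d Q).toReal * c := by
    intro i c
    rw [integral_indicator_const c (hA i), smul_eq_mul, Measure.real, hPA]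
  have hpt : ∀ ω, β ≤ ∑ i, (A i).indicator (fun _ => w i - α) ω := by
    intro ω
    have h1 := h (G ω) (Finset.univ.filter fun i => rot (G ω) (x i) ∈ Q) (by simp)
    have h2 : ∑ i, (A i).indicator (fun _ => w i - α) ω =
        ∑ i ∈ Finset.univ.filter fun i => rot (G ω) (x i) ∈ Q, (w i - α) := by
      rw [Finset.sum_filter]
      refine Finset.sum_congr rfl fun i _ => ?_
      simp only [Set.indicator_apply, A, Set.mem_preimage]
    rw [h2, Finset.sum_sub_distrib, Finset.sum_const, nsmul_eq_mul]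
    linarith
  have h3 : ∫ _ω, β ∂P ≤ ∫ ω, ∑ i, (A i).indicator (fun _ => w i - α) ω ∂P :=
    integral_mono (integrable_const β) (integrable_finsetSum _ fun i _ => hint i _) hpt
  rw [integral_finsetSum _ fun i _ => hint i _] at h3
  simp only [hval, integral_const, probReal_univ, smul_eq_mul, one_mul] at h3
  rw [← Finset.mul_sum, Finset.sum_sub_distrib, Finset.sum_const, Finset.card_univ,
    Fintype.card_fin, nsmul_eq_mul] at h3
  nlinarith

theorem energy_low {d N : ℕ} (s L c B p : ℝ) (hs : 0 < s) (hL : 0 < L) (hc : 0 ≤ c)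
    (hp : 1 ≤ p) (hN : 1 ≤ N) (hB : ∀ n : ℕ, c * (n : ℝ) ^ p - B ≤ Ecube d s n)
    (φ : (Fin d → ℝ) → S d)
    (hφ : ∀ u ∈ cube d, ∀ v ∈ cube d, dist (φ u) (φ v) ≤ L * ed u v)
    (hQ : MeasurableSet (φ '' cube d)) (hq : 0 < (sg d (φ '' cube d)).toReal)
    (x : Fin N → S d) (hx : Function.Injective x) :
    L ^ (-s) * (c * ((N : ℝ) * (sg d (φ '' cube d)).toReal) ^ p - B) ≤
      (sg d (φ '' cube d)).toReal * En s x := by
  set q := (sg d (φ '' cube d)).toReal with hqdef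
  have hN0 : (0 : ℝ) < N := by exact_mod_cast hN
  have hm : 0 < (N : ℝ) * q := mul_pos hN0 hq
  set m := (N : ℝ) * q with hmdef
  have hLs : 0 ≤ L ^ (-s) := Real.rpow_nonneg hL.le _
  have h := average (φ '' cube d) hQ x (fun i => ∑ j, K s (x i) (x j))
    (L ^ (-s) * c * p * m ^ p / m) (L ^ (-s) * (c * (m ^ p - p * m ^ p) - B)) (by
      intro g T hT
      have hz : Function.Injective (fun i => rot g (x i)) := by
        intro i j hij
        apply hx
        have h0 : dist (rot g (x i)) (rot g (x j)) = 0 := dist_eq_zero.2 hij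
        rw [rot_dist] at h0
        exact dist_eq_zero.1 h0
      have h1 := pointwise s L hs hL φ hφ (fun i => rot g (x i)) hz T (fun i hi => (hT i).1 hi)
      simp only [K, rot_dist] at h1
      have h2 := hB T.card
      have h3 := tangent p m (T.card : ℝ) hp hm (Nat.cast_nonneg _)
      have h4 := mul_le_mul_of_nonneg_left h3 hc
      have h5 : c * (m ^ p + p * m ^ p * ((T.card : ℝ) / m - 1)) - B ≤ Ecube d s T.card := by
        linarith
      have h6 := mul_le_mul_of_nonneg_left h5 hLs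
      refine le_trans (le_of_eq ?_) (le_trans h6 h1)
      field_simp
      ring)
  rw [← hqdef, ← hmdef] at h
  refine le_trans (le_of_eq ?_) h
  field_simp
  ring

theorem cube_compact (d : ℕ) : IsCompact (cube d) := by
  have : cube d = Set.Icc (0 : Fin d → ℝ) 1 := by
    ext u
    simp only [cube, Set.mem_ofPred_eq, Set.mem_Icc, Pi.le_def, Pi.zero_apply, Pi.one_apply]
    exact forall_and
  rw [this]
  exact isCompact_Icc

theorem om_pos (d : ℕ) : 0 < om d := by
  unfold om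
  have h1 : 0 < Real.Gamma (((d : ℝ) + 1) / 2) := Real.Gamma_pos_of_pos (by positivity)
  have h2 := Real.pi_pos
  positivity

end Low

theorem stLow (d : ℕ) (hd : 2 ≤ d) (s C : ℝ) (hs : (d : ℝ) < s) (hC : 0 ≤ C)
    (h1 : StCubeChart d) (h2 : StCube d s C) : StLow d s C := by
  intro ε hε
  have hd0 : (0 : ℝ) < d := by exact_mod_cast (by omega : 0 < d)
  have hs0 : 0 < s := by linarith
  have hsd : 0 < s / (d : ℝ) := div_pos hs0 hd0
  have hom := Low.om_pos d
  rcases hC.eq_or_lt with hC0 | hC0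
  · refine Eventually.of_forall fun N => ?_
    have h3 : 0 ≤ Em d s N / (N : ℝ) ^ (1 + s / (d : ℝ)) :=
      div_nonneg (Em_basic d (by omega) s hs0 N).1 (Real.rpow_nonneg (Nat.cast_nonneg _) _)
    rw [← hC0]
    linarith
  -- choice of the small parameter
  have hcont : ContinuousAt (fun t : ℝ => (1 + t) ^ (-s) * (1 - t) ^ (s / (d : ℝ)) *
      om d ^ (-s / (d : ℝ)) * (C - t)) 0 := by
    refine ContinuousAt.mul (ContinuousAt.mul (ContinuousAt.mul ?_ ?_) continuousAt_const)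
      (by fun_prop)
    · exact ContinuousAt.rpow_const (by fun_prop) (Or.inl (by norm_num))
    · exact ContinuousAt.rpow_const (by fun_prop) (Or.inl (by norm_num))
  have hev : ∀ᶠ t : ℝ in 𝓝 0, om d ^ (-s / (d : ℝ)) * C - ε / 2 <
      (1 + t) ^ (-s) * (1 - t) ^ (s / (d : ℝ)) * om d ^ (-s / (d : ℝ)) * (C - t) := by
    refine hcont.eventually (lt_mem_nhds ?_)
    simp only [add_zero, sub_zero, Real.one_rpow, one_mul]
    linarith
  have hev2 : ∀ᶠ t : ℝ in 𝓝 0, t < 1 := gt_mem_nhds (by norm_num)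
  have hev3 : ∀ᶠ t : ℝ in 𝓝 0, t < C := gt_mem_nhds hC0
  obtain ⟨t, ⟨htv, ht1, htC⟩, ht⟩ :=
    (((hev.and (hev2.and hev3)).filter_mono nhdsWithin_le_nhds).and
      (self_mem_nhdsWithin (a := (0 : ℝ)) (s := Ioi 0))).exists
  have ht0 : 0 < t := ht
  obtain ⟨a, ha, hchart⟩ := h1 t ht0
  obtain ⟨φ, hφc, hφd, hql, -, -, -⟩ := hchart a ha le_rfl (nrm 0)
  obtain ⟨B, hB0, hB⟩ := Low.cube_bound d s C (by linarith) h2 t ht0 htC.le
  have hQ : MeasurableSet (φ '' cube d) := ((Low.cube_compact d).image hφc).measurableSet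
  set q := (sg d (φ '' cube d)).toReal with hqdef
  have hq0 : 0 < (1 - t) * (a ^ d / om d) := by
    have : 0 < 1 - t := by linarith
    positivity
  have hq : 0 < q := lt_of_lt_of_le hq0 hql
  have hL : 0 < (1 + t) * a := by positivity
  have hLs : 0 < ((1 + t) * a) ^ (-s) := Real.rpow_pos_of_pos hL _
  -- the main constant
  have hmain : (1 + t) ^ (-s) * (1 - t) ^ (s / (d : ℝ)) * om d ^ (-s / (d : ℝ)) ≤
      ((1 + t) * a) ^ (-s) * q ^ (s / (d : ℝ)) := by
    have e1 : ((1 - t) * (a ^ d / om d)) ^ (s / (d : ℝ)) ≤ q ^ (s / (d : ℝ)) :=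
      Real.rpow_le_rpow hq0.le hql hsd.le
    refine le_trans (le_of_eq ?_) (mul_le_mul_of_nonneg_left e1 hLs.le)
    have e2 : (a ^ d) ^ (s / (d : ℝ)) = a ^ s := by
      rw [← Real.rpow_natCast, ← Real.rpow_mul ha.le]
      congr 1
      field_simp
    have e3 : 0 < a ^ s := Real.rpow_pos_of_pos ha _
    have e4 : 0 < om d ^ (s / (d : ℝ)) := Real.rpow_pos_of_pos hom _
    rw [Real.mul_rpow (by linarith) ha.le, Real.mul_rpow (by linarith) (by positivity),
      Real.div_rpow (by positivity) hom.le, e2, Real.rpow_neg ha.le, neg_div,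
      Real.rpow_neg hom.le]
    field_simp
  have hten : Tendsto (fun N : ℕ => (((1 + t) * a) ^ (-s) * B / q) /
      (N : ℝ) ^ (1 + s / (d : ℝ))) atTop (𝓝 0) :=
    tendsto_const_nhds.div_atTop
      ((tendsto_rpow_atTop (by linarith)).comp tendsto_natCast_atTop_atTop)
  filter_upwards [hten.eventually (gt_mem_nhds (show (0 : ℝ) < ε / 2 by linarith)),
    eventually_ge_atTop 1] with N hN1 hN
  have hN0 : (0 : ℝ) < N := by exact_mod_cast hN
  have hNp : 0 < (N : ℝ) ^ (1 + s / (d : ℝ)) := Real.rpow_pos_of_pos hN0 _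
  have hEm : ((1 + t) * a) ^ (-s) * q ^ (s / (d : ℝ)) * (C - t) * (N : ℝ) ^ (1 + s / (d : ℝ)) -
      ((1 + t) * a) ^ (-s) * B / q ≤ Em d s N := by
    refine le_of_forall_pos_le_add fun η hη => ?_
    obtain ⟨x, hx, hxe⟩ := (Em_basic d (by omega) s hs0 N).2.2.1 η hη
    have h3 := Low.energy_low s ((1 + t) * a) (C - t) B (1 + s / (d : ℝ)) hs0 hL (by linarith)
      (by linarith) hN hB φ (fun u hu v hv => (hφd u hu v hv).2) hQ hq x hx
    rw [← hqdef, Real.mul_rpow hN0.le hq.le, Real.rpow_add hq, Real.rpow_one] at h3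
    refine le_trans ?_ hxe.le
    refine le_of_mul_le_mul_left (le_trans (le_of_eq ?_) h3) hq
    field_simp
  rw [le_div_iff₀ hNp]
  rw [div_lt_iff₀ hNp] at hN1
  have h4 : (1 + t) ^ (-s) * (1 - t) ^ (s / (d : ℝ)) * om d ^ (-s / (d : ℝ)) * (C - t) ≤
      ((1 + t) * a) ^ (-s) * q ^ (s / (d : ℝ)) * (C - t) :=
    mul_le_mul_of_nonneg_right hmain (by linarith)
  have h5 := mul_le_mul_of_nonneg_right (le_trans htv.le h4) hNp.le
  nlinarith

end Pool.Agent.H734Z.RS
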