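import Pool.Agent.H734Z.RS.Defs
import Pool.Agent.Helper88.SE.P_sg_prob
import Pool.Agent.Helper88.SE.P_radial
import Pool.Agent.Helper88.SE.P_ball_lim
import Pool.Agent.Helper88.SE.P_ball_bound
import Pool.Agent.Helper88.SE.P_ball_low

set_option autoImplicit false

open MeasureTheory Set Filter Topology
open scoped ENNReal
open Pool.Agent.Helper88.SE

namespace Pool.Agent.H734Z.RS

namespace Mg

theorem const (d : ℕ) (u : ℝ) (x : S d) :
    ∫ y, Real.exp (-(u * dist x y ^ 2)) ∂(sg d) = mg d u := by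
  have := sg_prob d
  have hc : ∀ x x' : S d, (∫ y, Real.exp (-(u * dist x y ^ 2)) ∂(sg d)) =
      ∫ y, Real.exp (-(u * dist x' y ^ 2)) ∂(sg d) := by
    intro x x'
    have h1 : ∀ z : S d, (∫ y, Real.exp (-(u * dist z y ^ 2)) ∂(sg d)) =
        (∫⁻ y, ENNReal.ofReal (Real.exp (-(u * dist z y ^ 2))) ∂(sg d)).toReal := by
      intro z
      refine integral_eq_lintegral_of_nonneg_ae
        (Filter.Eventually.of_forall (fun y => (Real.exp_pos _).le)) ?_
      refine Continuous.aestronglyMeasurable ?_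
      fun_prop
    rw [h1, h1]
    congr 1
    exact radial d (fun r => ENNReal.ofReal (Real.exp (-(u * r ^ 2)))) (by fun_prop) x x'
  unfold mg zm
  have h2 : (fun x' : S d => ∫ y, Real.exp (-(u * dist x' y ^ 2)) ∂(sg d)) =
      fun _ => ∫ y, Real.exp (-(u * dist x y ^ 2)) ∂(sg d) := by
    funext x'
    exact hc x' x
  beta_reduce
  rw [h2, integral_const]
  simp

theorem integrable (d : ℕ) (u : ℝ) (x : S d) :
    Integrable (fun y : S d => Real.exp (-(u * dist x y ^ 2))) (sg d) := by
  have := sg_prob d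
  have hcont : Continuous fun y : S d => Real.exp (-(u * dist x y ^ 2)) := by fun_prop
  exact hcont.integrable_of_hasCompactSupport (HasCompactSupport.of_compactSpace _)

theorem mem_iff {d : ℕ} {u v : ℝ} (hu : 0 < u) (hv : 0 ≤ v) (x y : S d) :
    y ∈ Metric.closedBall x (Real.sqrt (v / u)) ↔ u * dist x y ^ 2 ≤ v := by
  rw [Metric.mem_closedBall, dist_comm, Real.le_sqrt dist_nonneg (by positivity),
    le_div_iff₀ hu, mul_comm]

theorem sqrt_pow (d : ℕ) {u v : ℝ} (hu : 0 < u) (hv : 0 ≤ v) :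
    Real.sqrt (v / u) ^ d = v ^ ((d : ℝ) / 2) * u ^ (-((d : ℝ) / 2)) := by
  rw [Real.sqrt_eq_rpow, ← Real.rpow_natCast, ← Real.rpow_mul (by positivity),
    Real.div_rpow hv hu.le, Real.rpow_neg hu.le, div_eq_mul_inv]
  congr 2 <;> ring_nf

theorem layer (d : ℕ) (u : ℝ) (hu : 0 < u) (x : S d) :
    mg d u = ∫ v in Ioi (0 : ℝ),
      Real.exp (-v) * (sg d (Metric.closedBall x (Real.sqrt (v / u)))).toReal := by
  have hprob := sg_prob d
  rw [← const d u x]
  set T : Set (S d × ℝ) := {p | u * dist x p.1 ^ 2 ≤ p.2} with hT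
  have hTm : MeasurableSet T := by
    refine measurableSet_le ?_ measurable_snd
    exact (measurable_const.mul
      (((continuous_const.dist continuous_fst).measurable).pow_const 2))
  have hexp : IntegrableOn (fun v : ℝ => Real.exp (-v)) (Ioi 0) := by
    simpa using integrableOn_exp_neg_Ioi (0 : ℝ)
  have hint : Integrable (T.indicator (fun p : S d × ℝ => Real.exp (-p.2)))
      ((sg d).prod (volume.restrict (Ioi 0))) :=
    (hexp.integrable.comp_snd (sg d)).indicator hTm
  have hswap := integral_integral_swap (f := fun (y : S d) (v : ℝ) =>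
    T.indicator (fun p : S d × ℝ => Real.exp (-p.2)) (y, v)) (μ := sg d)
    (ν := volume.restrict (Ioi (0:ℝ))) hint
  have h1 : ∀ y : S d, ∫ v in Ioi (0 : ℝ), T.indicator (fun p : S d × ℝ => Real.exp (-p.2)) (y, v) =
      Real.exp (-(u * dist x y ^ 2)) := by
    intro y
    have hr : 0 ≤ u * dist x y ^ 2 := by positivity
    have h2 : ∀ v : ℝ, T.indicator (fun p : S d × ℝ => Real.exp (-p.2)) (y, v) =
        (Ici (u * dist x y ^ 2)).indicator (fun v => Real.exp (-v)) v := by
      intro v
      by_cases hv : u * dist x y ^ 2 ≤ v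
      · rw [indicator_of_mem (show (y, v) ∈ T from hv), indicator_of_mem (show v ∈ Ici _ from hv)]
      · rw [indicator_of_notMem (show (y, v) ∉ T from hv),
          indicator_of_notMem (show v ∉ Ici _ from hv)]
    simp_rw [h2]
    rw [setIntegral_indicator measurableSet_Ici]
    rcases hr.eq_or_lt with h0 | h0
    · rw [← h0, inter_eq_left.mpr Ioi_subset_Ici_self]
      simpa using integral_exp_neg_Ioi (0 : ℝ)
    · have hsub : Ici (u * dist x y ^ 2) ⊆ Ioi 0 := fun v hv => lt_of_lt_of_le h0 hv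
      rw [inter_eq_right.mpr hsub, integral_Ici_eq_integral_Ioi]
      exact integral_exp_neg_Ioi _
  simp_rw [h1] at hswap
  rw [hswap]
  refine setIntegral_congr_fun measurableSet_Ioi fun v hv0 => ?_
  have hv' : (0 : ℝ) ≤ v := le_of_lt hv0
  beta_reduce
  have h3 : ∀ y : S d, T.indicator (fun p : S d × ℝ => Real.exp (-p.2)) (y, v) =
      (Metric.closedBall x (Real.sqrt (v / u))).indicator (fun _ => Real.exp (-v)) y := by
    intro y
    by_cases hv : u * dist x y ^ 2 ≤ v
    · rw [indicator_of_mem (show (y, v) ∈ T from hv), indicator_of_mem]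
      exact (mem_iff hu hv' x y).2 hv
    · rw [indicator_of_notMem (show (y, v) ∉ T from hv), indicator_of_notMem]
      exact fun h => hv ((mem_iff hu hv' x y).1 h)
  simp_rw [h3]
  rw [integral_indicator_const _ Metric.isClosed_closedBall.measurableSet, smul_eq_mul, mul_comm]
  rfl

theorem gam_int (d : ℕ) :
    IntegrableOn (fun v : ℝ => Real.exp (-v) * v ^ ((d : ℝ) / 2)) (Ioi 0) := by
  have h1 := Real.GammaIntegral_convergent (s := (d : ℝ) / 2 + 1) (by positivity)
  simpa using h1

theorem gam_eq (d : ℕ) :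
    ∫ v in Ioi (0 : ℝ), Real.exp (-v) * v ^ ((d : ℝ) / 2) = Real.Gamma ((d : ℝ) / 2 + 1) := by
  rw [Real.Gamma_eq_integral (by positivity)]
  simp

theorem lim (d : ℕ) :
    ∃ c : ℝ, 0 < c ∧ Tendsto (fun u : ℝ => u ^ ((d : ℝ) / 2) * mg d u) atTop (𝓝 c) := by
  haveI := sg_prob d
  obtain ⟨c0, hc0, hlim⟩ := ball_lim d
  obtain ⟨C, hC, hb⟩ := ball_bound d
  obtain ⟨x⟩ : Nonempty (S d) := ⟨⟨EuclideanSpace.single 0 1, by simp⟩⟩
  obtain ⟨m, hm⟩ : ∃ m : ℝ → ℝ, ∀ t, m t = (sg d (Metric.closedBall x t)).toReal :=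
    ⟨_, fun _ => rfl⟩
  have hmono : Monotone m := by
    intro s t hst
    rw [hm, hm]
    exact ENNReal.toReal_mono (measure_ne_top _ _)
      (measure_mono (Metric.closedBall_subset_closedBall hst))
  have hcan : ∀ u : ℝ, 0 < u → u ^ ((d : ℝ) / 2) * u ^ (-((d : ℝ) / 2)) = 1 := by
    intro u hu
    rw [← Real.rpow_add hu]
    simp
  refine ⟨∫ v in Ioi (0:ℝ), Real.exp (-v) * (c0 * v ^ ((d : ℝ) / 2)), ?_, ?_⟩
  · have h1 : (fun v : ℝ => Real.exp (-v) * (c0 * v ^ ((d : ℝ) / 2))) =
        fun v => c0 * (Real.exp (-v) * v ^ ((d : ℝ) / 2)) := by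
      funext v; ring
    rw [h1, integral_const_mul, gam_eq]
    exact mul_pos hc0 (Real.Gamma_pos_of_pos (by positivity))
  · have key : Tendsto (fun u : ℝ => ∫ v in Ioi (0:ℝ),
        u ^ ((d : ℝ) / 2) * (Real.exp (-v) * m (Real.sqrt (v / u))))
        atTop (𝓝 (∫ v in Ioi (0:ℝ), Real.exp (-v) * (c0 * v ^ ((d : ℝ) / 2)))) := by
      apply tendsto_integral_filter_of_dominated_convergence
        (fun v => C * (Real.exp (-v) * v ^ ((d : ℝ) / 2)))
      · filter_upwards [eventually_gt_atTop 0] with u hu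
        apply Measurable.aestronglyMeasurable
        have h1 : Measurable fun v : ℝ => m (Real.sqrt (v / u)) :=
          hmono.measurable.comp (measurable_id.div_const u).sqrt
        exact (((measurable_neg).exp).mul h1).const_mul _
      · filter_upwards [eventually_gt_atTop 0] with u hu
        rw [ae_restrict_iff' measurableSet_Ioi]
        refine Eventually.of_forall fun v hv => ?_
        have hv' : 0 < v := hv
        have h1 : m (Real.sqrt (v / u)) ≤ C * (v ^ ((d : ℝ) / 2) * u ^ (-((d : ℝ) / 2))) := by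
          rw [hm, ← sqrt_pow d hu hv'.le]; exact hb x _ (Real.sqrt_nonneg _)
        have h0 : 0 ≤ m (Real.sqrt (v / u)) := by rw [hm]; exact ENNReal.toReal_nonneg
        rw [Real.norm_of_nonneg (by positivity)]
        calc u ^ ((d : ℝ) / 2) * (Real.exp (-v) * m (Real.sqrt (v / u)))
            ≤ u ^ ((d : ℝ) / 2) *
              (Real.exp (-v) * (C * (v ^ ((d : ℝ) / 2) * u ^ (-((d : ℝ) / 2))))) := by gcongr
          _ = C * (Real.exp (-v) * v ^ ((d : ℝ) / 2)) *
              (u ^ ((d : ℝ) / 2) * u ^ (-((d : ℝ) / 2))) := by ring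
          _ = C * (Real.exp (-v) * v ^ ((d : ℝ) / 2)) := by rw [hcan u hu, mul_one]
      · exact (gam_int d).const_mul C
      · rw [ae_restrict_iff' measurableSet_Ioi]
        refine Eventually.of_forall fun v hv => ?_
        have hv' : 0 < v := hv
        have h2 : Tendsto (fun u : ℝ => Real.sqrt (v / u)) atTop (𝓝[>] 0) := by
          rw [tendsto_nhdsWithin_iff]
          refine ⟨?_, (eventually_gt_atTop 0).mono fun u hu => Real.sqrt_pos.2 (div_pos hv' hu)⟩
          have h5 : Tendsto (fun u : ℝ => v / u) atTop (𝓝 0) :=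
            tendsto_const_nhds.div_atTop tendsto_id
          simpa using h5.sqrt
        have h3 := (hlim x).comp h2
        have h4 := h3.const_mul (Real.exp (-v) * v ^ ((d : ℝ) / 2))
        have e : Real.exp (-v) * v ^ ((d : ℝ) / 2) * c0 =
          Real.exp (-v) * (c0 * v ^ ((d : ℝ) / 2)) := by ring
        rw [e] at h4
        refine h4.congr' ?_
        filter_upwards [eventually_gt_atTop 0] with u hu
        simp only [Function.comp]
        rw [← hm, sqrt_pow d hu hv'.le, Real.rpow_neg hu.le]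
        have p1 : 0 < v ^ ((d : ℝ) / 2) := by positivity
        have p2 : 0 < u ^ ((d : ℝ) / 2) := by positivity
        field_simp
    refine key.congr' ?_
    filter_upwards [eventually_gt_atTop 0] with u hu
    rw [layer d u hu x, ← integral_const_mul]
    simp only [hm]

theorem pos (d : ℕ) (u : ℝ) : 0 < mg d u := by
  haveI := sg_prob d
  let x : S d := ⟨EuclideanSpace.single 0 1, by simp⟩
  rw [← const d u x, integral_pos_iff_support_of_nonneg (fun y => (Real.exp_pos _).le)
    (integrable d u x)]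
  have : Function.support (fun y : S d => Real.exp (-(u * dist x y ^ 2))) = univ := by
    ext y; simp [Real.exp_ne_zero]
  rw [this, measure_univ]
  exact zero_lt_one

theorem le_one (d : ℕ) (u : ℝ) (hu : 0 ≤ u) : mg d u ≤ 1 := by
  haveI := sg_prob d
  let x : S d := ⟨EuclideanSpace.single 0 1, by simp⟩
  have hle : ∀ y : S d, Real.exp (-(u * dist x y ^ 2)) ≤ 1 := fun y => by
    rw [Real.exp_le_one_iff]
    have : 0 ≤ u * dist x y ^ 2 := by positivity
    linarith
  rw [← const d u x]
  calc ∫ y, Real.exp (-(u * dist x y ^ 2)) ∂(sg d) ≤ ∫ _y : S d, (1 : ℝ) ∂(sg d) :=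
        integral_mono (integrable d u x) (integrable_const _) hle
    _ = 1 := by simp

theorem upper (d : ℕ) :
    ∃ C : ℝ, 0 < C ∧ ∀ u : ℝ, 0 < u → mg d u ≤ C * u ^ (-((d : ℝ) / 2)) := by
  obtain ⟨C, hC, hb⟩ := ball_bound d
  haveI := sg_prob d
  have hG : 0 < Real.Gamma ((d : ℝ) / 2 + 1) := Real.Gamma_pos_of_pos (by positivity)
  refine ⟨C * Real.Gamma ((d : ℝ) / 2 + 1), by positivity, fun u hu => ?_⟩
  let x : S d := ⟨EuclideanSpace.single 0 1, by simp⟩
  rw [layer d u hu x]
  have hconv2 : IntegrableOn (fun v : ℝ => (C * u ^ (-((d : ℝ) / 2))) *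
      (Real.exp (-v) * v ^ ((d : ℝ) / 2))) (Ioi 0) := (gam_int d).const_mul _
  calc ∫ v in Ioi (0 : ℝ),
        Real.exp (-v) * (sg d (Metric.closedBall x (Real.sqrt (v / u)))).toReal
      ≤ ∫ v in Ioi (0 : ℝ), (C * u ^ (-((d : ℝ) / 2))) * (Real.exp (-v) * v ^ ((d : ℝ) / 2)) := by
        refine integral_mono_of_nonneg ?_ hconv2 ?_
        · exact Eventually.of_forall fun v => by positivity
        · refine (ae_restrict_iff' measurableSet_Ioi).2 (Eventually.of_forall fun v hv => ?_)
          have hv' : (0 : ℝ) < v := hv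
          have h1 := hb x (Real.sqrt (v / u)) (Real.sqrt_nonneg _)
          rw [sqrt_pow d hu hv'.le] at h1
          calc Real.exp (-v) * (sg d (Metric.closedBall x (Real.sqrt (v / u)))).toReal
              ≤ Real.exp (-v) * (C * (v ^ ((d : ℝ) / 2) * u ^ (-((d : ℝ) / 2)))) :=
                mul_le_mul_of_nonneg_left h1 (Real.exp_pos _).le
            _ = (C * u ^ (-((d : ℝ) / 2))) * (Real.exp (-v) * v ^ ((d : ℝ) / 2)) := by ring
    _ = C * Real.Gamma ((d : ℝ) / 2 + 1) * u ^ (-((d : ℝ) / 2)) := by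
        rw [integral_const_mul, gam_eq]
        ring

theorem lower (d : ℕ) :
    ∃ c : ℝ, 0 < c ∧ ∀ u : ℝ, 1 ≤ u → c * u ^ (-((d : ℝ) / 2)) ≤ mg d u := by
  obtain ⟨c, hc, hb⟩ := ball_low d
  haveI := sg_prob d
  refine ⟨Real.exp (-1) * c, by positivity, fun u hu => ?_⟩
  have hu0 : 0 < u := by linarith
  let x : S d := ⟨EuclideanSpace.single 0 1, by simp⟩
  have h1 : Real.sqrt (1 / u) ≤ 2 := by
    rw [Real.sqrt_le_iff]
    refine ⟨by norm_num, ?_⟩
    rw [div_le_iff₀ hu0]
    linarith
  have h2 := hb x (Real.sqrt (1 / u)) (Real.sqrt_pos.2 (by positivity)) h1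
  rw [sqrt_pow d hu0 zero_le_one, Real.one_rpow, one_mul] at h2
  rw [← const d u x]
  calc Real.exp (-1) * c * u ^ (-((d : ℝ) / 2))
      ≤ Real.exp (-1) * (sg d (Metric.closedBall x (Real.sqrt (1 / u)))).toReal := by
        rw [mul_assoc]
        exact mul_le_mul_of_nonneg_left h2 (Real.exp_pos _).le
    _ = ∫ y, (Metric.closedBall x (Real.sqrt (1 / u))).indicator
          (fun _ => Real.exp (-1)) y ∂(sg d) := by
        rw [integral_indicator_const _ Metric.isClosed_closedBall.measurableSet, smul_eq_mul,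
          mul_comm]
        rfl
    _ ≤ ∫ y, Real.exp (-(u * dist x y ^ 2)) ∂(sg d) := by
        refine integral_mono ((integrable_const _).indicator
          Metric.isClosed_closedBall.measurableSet) (integrable d u x) fun y => ?_
        by_cases hy : y ∈ Metric.closedBall x (Real.sqrt (1 / u))
        · rw [indicator_of_mem hy]
          have := (mem_iff hu0 zero_le_one x y).1 hy
          exact Real.exp_le_exp.2 (by linarith)
        · rw [indicator_of_notMem hy]
          exact (Real.exp_pos _).le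

end Mg

theorem stMg (d : ℕ) (hd : 2 ≤ d) : StMg d := by
  obtain ⟨C, hC, h1⟩ := Mg.upper d
  obtain ⟨c, hc, h2⟩ := Mg.lower d
  exact ⟨Mg.const d, Mg.pos d, Mg.le_one d, Mg.lim d, c, C, hc, hC, h1, h2⟩

end Pool.Agent.H734Z.RS
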