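import Pool.Agent.H734Z.RS.Defs

set_option autoImplicit false

open MeasureTheory Set Filter Topology
open Pool.Agent.Helper88.SE

namespace Pool.Agent.H734Z.RS

namespace Sub

lemma cs_pos {b : ℝ} (hb : 0 < b) :
    IntegrableOn (fun x : ℝ => Real.exp (-(x - b / x) ^ 2)) (Ioi 0) ∧
      ∫ x in Ioi (0 : ℝ), Real.exp (-(x - b / x) ^ 2) = Real.sqrt Real.pi / 2 := by
  have d1 : ∀ x ∈ Ioi (0 : ℝ), HasDerivWithinAt (fun x : ℝ => b / x) (-b / x ^ 2) (Ioi 0) x := by
    intro x hx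
    have := ((hasDerivAt_inv (ne_of_gt hx)).const_mul b).hasDerivWithinAt (s := Ioi 0)
    exact this.congr_deriv (by ring)
  have d2 : ∀ x ∈ Ioi (0 : ℝ),
      HasDerivWithinAt (fun x : ℝ => x - b / x) (1 + b / x ^ 2) (Ioi 0) x := by
    intro x hx
    exact ((hasDerivWithinAt_id x (Ioi 0)).sub (d1 x hx)).congr_deriv (by ring)
  have i1 : InjOn (fun x : ℝ => b / x) (Ioi 0) := by
    intro x hx y hy h
    have hx' : (0 : ℝ) < x := hx
    have hy' : (0 : ℝ) < y := hy
    simp only at h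
    field_simp at h
    linarith
  have i2 : InjOn (fun x : ℝ => x - b / x) (Ioi 0) := by
    refine StrictMonoOn.injOn fun x hx y hy h => ?_
    have := div_lt_div_of_pos_left hb (show (0 : ℝ) < x from hx) h
    linarith
  have m1 : (fun x : ℝ => b / x) '' Ioi 0 = Ioi 0 := by
    ext y
    constructor
    · rintro ⟨x, hx, rfl⟩
      exact div_pos hb hx
    · intro hy
      have hy' : (0 : ℝ) < y := hy
      exact ⟨b / y, div_pos hb hy, by simp only; field_simp⟩
  have m2 : (fun x : ℝ => x - b / x) '' Ioi 0 = univ := by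
    refine eq_univ_of_forall fun t => ?_
    have h1 : 0 ≤ t ^ 2 + 4 * b := by positivity
    have h2 := Real.sq_sqrt h1
    have h3 : |t| < Real.sqrt (t ^ 2 + 4 * b) := Real.lt_sqrt_of_sq_lt (by rw [sq_abs]; linarith)
    have h4 : 0 < (t + Real.sqrt (t ^ 2 + 4 * b)) / 2 := by linarith [neg_abs_le t]
    refine ⟨_, h4, ?_⟩
    simp only
    rw [sub_eq_iff_eq_add, ← sub_eq_iff_eq_add', eq_div_iff h4.ne']
    nlinarith
  have e2 := integral_image_eq_integral_abs_deriv_smul measurableSet_Ioi d2 i2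
    (fun t => Real.exp (-t ^ 2))
  have n2 := integrableOn_image_iff_integrableOn_abs_deriv_smul measurableSet_Ioi d2 i2
    (fun t => Real.exp (-t ^ 2))
  have e1 := integral_image_eq_integral_abs_deriv_smul measurableSet_Ioi d1 i1
    (fun x => Real.exp (-(x - b / x) ^ 2))
  have n1 := integrableOn_image_iff_integrableOn_abs_deriv_smul measurableSet_Ioi d1 i1
    (fun x => Real.exp (-(x - b / x) ^ 2))
  rw [m2] at e2 n2
  rw [m1] at e1 n1
  have hg : IntegrableOn (fun t : ℝ => Real.exp (-t ^ 2)) univ := by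
    simpa using (integrable_exp_neg_mul_sq one_pos).integrableOn (s := univ)
  have hI : IntegrableOn (fun x : ℝ => Real.exp (-(x - b / x) ^ 2)) (Ioi 0) := by
    refine Integrable.mono' (n2.1 hg) (by fun_prop) (ae_of_all _ fun x => ?_)
    rw [Real.norm_eq_abs, abs_of_pos (Real.exp_pos _), smul_eq_mul, abs_of_pos (by positivity)]
    exact le_mul_of_one_le_left (Real.exp_pos _).le (le_add_of_nonneg_right (by positivity))
  refine ⟨hI, ?_⟩
  have c1 : ∀ x ∈ Ioi (0 : ℝ), |1 + b / x ^ 2| • Real.exp (-(x - b / x) ^ 2) =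
      Real.exp (-(x - b / x) ^ 2) + |-b / x ^ 2| • Real.exp (-(b / x - b / (b / x)) ^ 2) := by
    intro x hx
    have hx' : (0 : ℝ) < x := hx
    rw [show b / (b / x) = x by field_simp, abs_of_pos (by positivity), neg_div, abs_neg,
      abs_of_pos (by positivity), show (b / x - x) ^ 2 = (x - b / x) ^ 2 by ring, smul_eq_mul,
      smul_eq_mul]
    ring
  rw [setIntegral_congr_fun measurableSet_Ioi c1, integral_add hI (n1.1 hI), ← e1,
    Measure.restrict_univ] at e2
  have := integral_gaussian 1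
  simp only [neg_mul, one_mul, div_one] at this
  linarith

lemma cs {b : ℝ} (hb : 0 ≤ b) :
    IntegrableOn (fun x : ℝ => Real.exp (-(x - b / x) ^ 2)) (Ioi 0) ∧
      ∫ x in Ioi (0 : ℝ), Real.exp (-(x - b / x) ^ 2) = Real.sqrt Real.pi / 2 := by
  rcases hb.eq_or_lt with rfl | hb
  · refine ⟨?_, ?_⟩
    · simpa using (integrable_exp_neg_mul_sq one_pos).integrableOn (s := Ioi 0)
    · simpa using integral_gaussian_Ioi 1
  · exact cs_pos hb

lemma pv_eq {lam x : ℝ} (hl : 0 < lam) (hx : 0 < x) :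
    pv lam (lam ^ 2 / (4 * x ^ 2)) =
      4 / Real.sqrt Real.pi * (x ^ 3 / lam ^ 2) * Real.exp (-x ^ 2) := by
  have h1 : (lam ^ 2 / (4 * x ^ 2)) ^ (-(3 / 2 : ℝ)) = 8 * x ^ 3 / lam ^ 3 := by
    rw [show lam ^ 2 / (4 * x ^ 2) = (lam / (2 * x)) ^ 2 by ring, ← Real.rpow_natCast,
      ← Real.rpow_mul (by positivity), show ((2 : ℕ) : ℝ) * -(3 / 2) = -((3 : ℕ) : ℝ) by norm_num,
      Real.rpow_neg (by positivity), Real.rpow_natCast]
    field_simp
    norm_num
  rw [pv, h1, show lam ^ 2 / (4 * (lam ^ 2 / (4 * x ^ 2))) = x ^ 2 by field_simp]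
  field_simp
  norm_num

lemma exp_close {x y q : ℝ} (hx : 0 ≤ x) (hxy : x ≤ y) (h : y ≤ q * x) (hq : 1 ≤ q) :
    |Real.exp (-x) - Real.exp (-y)| ≤ q - 1 := by
  have h1 : Real.exp (-y) ≤ Real.exp (-x) := Real.exp_le_exp.2 (by linarith)
  have h2 : Real.exp (-y) = Real.exp (-x) * Real.exp (-(y - x)) := by
    rw [← Real.exp_add]
    congr 1
    ring
  have h3 := Real.add_one_le_exp (-(y - x))
  have h4 : x * Real.exp (-x) ≤ 1 := by
    have := Real.add_one_le_exp x
    rw [Real.exp_neg, ← div_eq_mul_inv, div_le_one (Real.exp_pos _)]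
    linarith
  have h5 := Real.exp_pos (-x)
  rw [abs_of_nonneg (by linarith), h2]
  calc Real.exp (-x) - Real.exp (-x) * Real.exp (-(y - x)) ≤ Real.exp (-x) * (y - x) := by nlinarith
    _ ≤ Real.exp (-x) * ((q - 1) * x) := mul_le_mul_of_nonneg_left (by linarith) h5.le
    _ = (q - 1) * (x * Real.exp (-x)) := by ring
    _ ≤ q - 1 := mul_le_of_le_one_right (by linarith) h4

lemma key {w lam ρ r r' : ℝ} (hw : 0 ≤ w) (hl : 0 ≤ lam) (h0 : 0 ≤ ρ) (h1 : ρ ≤ 1) (hr : 0 ≤ r)
    (a1 : r / (1 + ρ ^ 2) ≤ r') (a2 : r' ≤ r * (1 + ρ ^ 2)) :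
    |Real.exp (-(w * r' ^ 2)) * Real.exp (-(lam * r')) -
      Real.exp (-(w * r ^ 2)) * Real.exp (-(lam * r))| ≤ 3 * ρ ^ 2 := by
  have hc : 1 ≤ 1 + ρ ^ 2 := by nlinarith
  have hr' : 0 ≤ r' := le_trans (by positivity) a1
  rw [div_le_iff₀ (by positivity)] at a1
  have gen : ∀ s s' : ℝ, 0 ≤ s → 0 ≤ s' → s' ≤ s * (1 + ρ ^ 2) →
      w * s' ^ 2 + lam * s' ≤ (1 + ρ ^ 2) ^ 2 * (w * s ^ 2 + lam * s) := by
    intro s s' hs hs' h
    have b1 : s' ^ 2 ≤ (s * (1 + ρ ^ 2)) ^ 2 := pow_le_pow_left₀ hs' h 2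
    have b2 : s * (1 + ρ ^ 2) ≤ s * (1 + ρ ^ 2) ^ 2 :=
      mul_le_mul_of_nonneg_left (le_self_pow₀ hc two_ne_zero) hs
    have b3 := mul_le_mul_of_nonneg_left b1 hw
    have b4 := mul_le_mul_of_nonneg_left (h.trans b2) hl
    nlinarith
  have hq : (1 + ρ ^ 2) ^ 2 - 1 ≤ 3 * ρ ^ 2 := by
    have : ρ ^ 2 ≤ 1 := by nlinarith
    nlinarith [sq_nonneg ρ]
  rw [← Real.exp_add, ← Real.exp_add, ← neg_add, ← neg_add]
  rcases le_total (w * r' ^ 2 + lam * r') (w * r ^ 2 + lam * r) with h | h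
  · exact (exp_close (by positivity) h (gen r' r hr' hr a1) (one_le_pow₀ hc)).trans hq
  · rw [abs_sub_comm]
    exact (exp_close (by positivity) h (gen r r' hr hr' a2) (one_le_pow₀ hc)).trans hq

end Sub

theorem stSub : StSub := by
  intro lam hl
  have hπ : 1 ≤ Real.sqrt Real.pi := Real.one_le_sqrt.2 (by linarith [Real.pi_gt_three])
  refine ⟨fun u hu => ⟨by unfold pv; positivity, ?_, ?_⟩, fun r hr => ?_⟩
  · have h1 : lam / (2 * Real.sqrt Real.pi) ≤ lam := div_le_self hl.le (by linarith)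
    have h2 : Real.exp (-(lam ^ 2 / (4 * u))) ≤ 1 := Real.exp_le_one_iff.2 (by
      have : 0 ≤ lam ^ 2 / (4 * u) := by positivity
      linarith)
    unfold pv
    calc _ ≤ lam * u ^ (-(3 / 2 : ℝ)) * 1 := by gcongr
      _ = _ := mul_one _
  · have hs := Real.sqrt_pos.2 hu
    have hx : 0 < lam / (2 * Real.sqrt u) := by positivity
    have e : u = lam ^ 2 / (4 * (lam / (2 * Real.sqrt u)) ^ 2) := by
      field_simp
      rw [Real.sq_sqrt hu.le]
      ring
    rw [e, Sub.pv_eq hl hx]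
    generalize lam / (2 * Real.sqrt u) = x at hx
    have h1 : x ^ 3 * Real.exp (-x ^ 2) ≤ 1 := by
      have := Real.quadratic_le_exp_of_nonneg (sq_nonneg x)
      rw [Real.exp_neg, ← div_eq_mul_inv, div_le_one (Real.exp_pos _)]
      nlinarith [sq_nonneg (x - x ^ 2 / 2), sq_nonneg (x ^ 2)]
    have h2 : 4 / Real.sqrt Real.pi ≤ 8 := by
      rw [div_le_iff₀ (by linarith)]
      linarith
    calc _ = 4 / Real.sqrt Real.pi * (x ^ 3 * Real.exp (-x ^ 2)) / lam ^ 2 := by ring
      _ ≤ 8 * 1 / lam ^ 2 := by gcongr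
      _ = _ := by rw [mul_one]
  · have d1 : ∀ x ∈ Ioi (0 : ℝ), HasDerivWithinAt (fun x : ℝ => lam ^ 2 / (4 * x ^ 2))
        (-(lam ^ 2 / (2 * x ^ 3))) (Ioi 0) x := by
      intro x hx
      have hx' : (0 : ℝ) < x := hx
      have := (((hasDerivAt_pow 2 x).const_mul 4).inv (by positivity)).const_mul (lam ^ 2)
      refine (this.hasDerivWithinAt (s := Ioi 0)).congr_deriv ?_
      field_simp
      ring
    have i1 : InjOn (fun x : ℝ => lam ^ 2 / (4 * x ^ 2)) (Ioi 0) := by
      intro x hx y hy h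
      have hx' : (0 : ℝ) < x := hx
      have hy' : (0 : ℝ) < y := hy
      simp only at h
      field_simp at h
      exact (pow_left_inj₀ hx'.le hy'.le two_ne_zero).1 h.symm
    have m1 : (fun x : ℝ => lam ^ 2 / (4 * x ^ 2)) '' Ioi 0 = Ioi 0 := by
      ext u
      constructor
      · rintro ⟨x, hx, rfl⟩
        have hx' : (0 : ℝ) < x := hx
        exact (by positivity : 0 < lam ^ 2 / (4 * x ^ 2))
      · intro hu
        have hu' : (0 : ℝ) < u := hu
        have hs := Real.sqrt_pos.2 hu'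
        refine ⟨lam / (2 * Real.sqrt u), (by positivity : 0 < lam / (2 * Real.sqrt u)), ?_⟩
        simp only
        field_simp
        rw [Real.sq_sqrt hu'.le]
        ring
    have e1 := integral_image_eq_integral_abs_deriv_smul measurableSet_Ioi d1 i1
      (fun u => pv lam u * Real.exp (-(u * r ^ 2)))
    have n1 := integrableOn_image_iff_integrableOn_abs_deriv_smul measurableSet_Ioi d1 i1
      (fun u => pv lam u * Real.exp (-(u * r ^ 2)))
    rw [m1] at e1 n1
    obtain ⟨c1, c2⟩ := Sub.cs (b := lam * r / 2) (by positivity)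
    have c3 : ∀ x ∈ Ioi (0 : ℝ), |-(lam ^ 2 / (2 * x ^ 3))| •
        (pv lam (lam ^ 2 / (4 * x ^ 2)) * Real.exp (-(lam ^ 2 / (4 * x ^ 2) * r ^ 2))) =
        2 / Real.sqrt Real.pi * Real.exp (-(lam * r)) * Real.exp (-(x - lam * r / 2 / x) ^ 2) := by
      intro x hx
      have hx' : (0 : ℝ) < x := hx
      have e : Real.exp (-x ^ 2) * Real.exp (-(lam ^ 2 / (4 * x ^ 2) * r ^ 2)) =
          Real.exp (-(lam * r)) * Real.exp (-(x - lam * r / 2 / x) ^ 2) := by
        rw [← Real.exp_add, ← Real.exp_add]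
        congr 1
        field_simp
        ring
      rw [abs_neg, abs_of_pos (by positivity), Sub.pv_eq hl hx', smul_eq_mul, mul_assoc _ (Real.exp _),
        e]
      field_simp
      ring
    refine ⟨n1.2 (IntegrableOn.congr_fun (c1.const_mul _) (fun x hx => (c3 x hx).symm)
      measurableSet_Ioi), ?_⟩
    rw [e1, setIntegral_congr_fun measurableSet_Ioi c3, integral_const_mul, c2]
    field_simp

theorem stMod (d : ℕ) (hd : 2 ≤ d) (α : ℝ) (h0 : 0 < α) (h2 : α < 2) (hW : StW d α)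
    (hM : StMel α) : StMod d α := by
  intro a ha
  obtain ⟨C, -, hW⟩ := hW
  obtain ⟨-, hI, -⟩ := hW a ha
  have hc := hM.1
  have hJ : 0 ≤ ∫ w in Ioi (0 : ℝ), |Wt d α a w| := integral_nonneg fun _ => abs_nonneg _
  have hm : Measurable (Wt d α a) := by
    unfold Wt
    fun_prop
  have bd : ∀ (f : ℝ → ℝ) (B : ℝ), (∀ w ∈ Ioi (0 : ℝ), |f w| ≤ B) →
      |∫ w in Ioi (0 : ℝ), Wt d α a w * f w| ≤ (∫ w in Ioi (0 : ℝ), |Wt d α a w|) * B := by
    intro f B hf
    rw [← integral_mul_const, ← Real.norm_eq_abs]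
    refine norm_integral_le_of_norm_le (hI.abs.mul_const B) ?_
    filter_upwards [ae_restrict_mem measurableSet_Ioi] with w hw
    rw [Real.norm_eq_abs, abs_mul]
    exact mul_le_mul_of_nonneg_left (hf w hw) (abs_nonneg _)
  have e1 : ∀ r, ∀ w ∈ Ioi (0 : ℝ), |Real.exp (-(w * r ^ 2))| ≤ 1 := by
    intro r w hw
    have hw' : (0 : ℝ) < w := hw
    rw [abs_of_pos (Real.exp_pos _), Real.exp_le_one_iff]
    have : 0 ≤ w * r ^ 2 := by positivity
    linarith
  have it : ∀ r, IntegrableOn (fun w => Wt d α a w * Real.exp (-(w * r ^ 2))) (Ioi 0) := by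
    intro r
    refine Integrable.mono' hI.abs (by fun_prop) ?_
    filter_upwards [ae_restrict_mem measurableSet_Ioi] with w hw
    rw [Real.norm_eq_abs, abs_mul]
    exact mul_le_of_le_one_right (abs_nonneg _) (e1 r w hw)
  refine ⟨1 + cA α * ∫ w in Ioi (0 : ℝ), |Wt d α a w|, le_add_of_nonneg_right (by positivity),
    ?_, fun r => ?_, fun lam ρ r r' hl g0 g1 hr a1 a2 => ⟨?_, ?_⟩⟩
  · refine measurable_const.mul ?_
    have : StronglyMeasurable (Function.uncurry fun r w : ℝ =>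
        Wt d α a w * Real.exp (-(w * r ^ 2))) := by
      refine Measurable.stronglyMeasurable ?_
      unfold Function.uncurry
      fun_prop
    exact this.integral_prod_right.measurable
  · rw [Gf, abs_mul, abs_of_pos hc]
    have := mul_le_mul_of_nonneg_left (bd _ 1 (e1 r)) hc.le
    linarith
  · have e : Gf d α a r' * Real.exp (-(lam * r')) - Gf d α a r * Real.exp (-(lam * r)) =
        cA α * ∫ w in Ioi (0 : ℝ), Wt d α a w *
          (Real.exp (-(w * r' ^ 2)) * Real.exp (-(lam * r')) -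
            Real.exp (-(w * r ^ 2)) * Real.exp (-(lam * r))) := by
      rw [Gf, Gf, mul_assoc, mul_assoc, ← mul_sub, ← integral_mul_const, ← integral_mul_const,
        ← integral_sub ((it r').mul_const _) ((it r).mul_const _)]
      congr 2
      funext w
      ring
    rw [e, abs_mul, abs_of_pos hc]
    have := mul_le_mul_of_nonneg_left (bd _ (3 * ρ ^ 2) fun w hw =>
      Sub.key (le_of_lt hw) hl g0 g1 hr a1 a2) hc.le
    nlinarith [sq_nonneg ρ]
  · have k1 := Sub.key ha.le hl g0 g1 hr a1 a2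
    have k2 := Sub.key le_rfl hl g0 g1 hr a1 a2
    simp only [zero_mul, neg_zero, Real.exp_zero, one_mul] at k2
    rw [abs_le] at k1 k2 ⊢
    constructor <;> nlinarith [k1.1, k1.2, k2.1, k2.2]

end Pool.Agent.H734Z.RS
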